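import Mathlib
import Pool.Agent.Lib.MP_209724_lc.MV.CoreA
import Pool.Agent.Lib.MP_209724_lc.GP.Low
import Pool.Agent.Lib.MP_209724_lc.GP.Local
import Pool.Agent.Lib.MP_209724_lc.GP.Rows
import Pool.Agent.Lib.MP_209724_lc.GS.Comp
import Pool.Agent.Lib.MP_209724_lc.GF.LocalK
import Pool.Agent.Lib.MP_209724_lc.GS.AsmD
import Pool.Agent.Lib.MP_209724_lc.GS.Final
import Pool.Agent.Lib.MP_209724_lc.GP.Core

section

namespace Pool.Agent.Lib.MP_209724_lc.GE

open MvPolynomial Filter Topology Metric Set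

variable {n : ℕ}

/-- a maximal ideal of a finitely generated algebra gives a point -/
private theorem exists_point {A : Type*} [CommRing A] [Algebra ℂ A] [Algebra.FiniteType ℂ A]
    (Q : Ideal A) [hQ : Q.IsMaximal] : ∃ ψ : A →ₐ[ℂ] ℂ, ∀ x ∈ Q, ψ x = 0 := by
  let : Field (A ⧸ Q) := Ideal.Quotient.field Q
  have : Algebra.FiniteType ℂ (A ⧸ Q) :=
    Algebra.FiniteType.of_surjective (Ideal.Quotient.mkₐ ℂ Q) (Ideal.Quotient.mkₐ_surjective ℂ Q)
  have : Module.Finite ℂ (A ⧸ Q) := finite_of_finite_type_of_isJacobsonRing ℂ (A ⧸ Q)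
  have hbij : Function.Bijective (algebraMap ℂ (A ⧸ Q)) :=
    IsAlgClosed.algebraMap_bijective_of_isIntegral
  let e : ℂ ≃ₐ[ℂ] (A ⧸ Q) := AlgEquiv.ofBijective (Algebra.ofId ℂ (A ⧸ Q)) hbij
  refine ⟨(e.symm : (A ⧸ Q) →ₐ[ℂ] ℂ).comp (Ideal.Quotient.mkₐ ℂ Q), fun x hx => ?_⟩
  have h1 : Ideal.Quotient.mkₐ ℂ Q x = 0 := by
    rw [Ideal.Quotient.mkₐ_eq_mk]
    exact Ideal.Quotient.eq_zero_iff_mem.2 hx
  rw [AlgHom.comp_apply, h1, map_zero]

/-- points over points -/
private theorem exists_over {A : Type*} [CommRing A] [Algebra ℂ A] [Algebra.FiniteType ℂ A]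
    {s : ℕ} (g : MvPolynomial (Fin s) ℂ →ₐ[ℂ] A) (hinj : Function.Injective g)
    (hg : g.IsIntegral) (y : Fin s → ℂ) :
    ∃ ψ : A →ₐ[ℂ] ℂ, ∀ p, ψ (g p) = eval y p := by
  let : Algebra (MvPolynomial (Fin s) ℂ) A := (g : MvPolynomial (Fin s) ℂ →+* A).toAlgebra
  have : Algebra.IsIntegral (MvPolynomial (Fin s) ℂ) A := ⟨fun x => hg x⟩
  have hsurj : Function.Surjective (eval y : MvPolynomial (Fin s) ℂ →+* ℂ) := fun c =>
    ⟨C c, by simp⟩
  have hmax : (RingHom.ker (eval y : MvPolynomial (Fin s) ℂ →+* ℂ)).IsMaximal :=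
    RingHom.ker_isMaximal_of_surjective _ hsurj
  obtain ⟨Q, hQ, hQc⟩ := Ideal.exists_ideal_over_maximal_of_isIntegral (S := A)
    (RingHom.ker (eval y : MvPolynomial (Fin s) ℂ →+* ℂ)) (by
      have h0 : RingHom.ker (algebraMap (MvPolynomial (Fin s) ℂ) A) = ⊥ :=
        (RingHom.injective_iff_ker_eq_bot _).1 hinj
      rw [h0]
      exact bot_le)
  obtain ⟨ψ, hψ⟩ := exists_point Q
  refine ⟨ψ, fun p => ?_⟩
  have h1 : p - C (eval y p) ∈ RingHom.ker (eval y : MvPolynomial (Fin s) ℂ →+* ℂ) := by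
    rw [RingHom.mem_ker]
    simp
  rw [← hQc, Ideal.mem_comap] at h1
  have h2 := hψ _ h1
  have h3 : algebraMap (MvPolynomial (Fin s) ℂ) A (p - C (eval y p)) =
      g p - algebraMap ℂ A (eval y p) := by
    change g (p - C (eval y p)) = _
    rw [map_sub]
    congr 1
    exact g.commutes _
  rw [h3, map_sub, AlgHom.commutes, sub_eq_zero] at h2
  exact h2

/-- **Bounded zero sets are finite.** -/
theorem finite_of_bounded (I : Ideal (MvPolynomial (Fin n) ℂ)) {R : ℝ}
    (hR : ∀ z : Fin n → ℂ, (∀ f ∈ I, eval z f = 0) → ‖z‖ ≤ R) :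
    {z : Fin n → ℂ | ∀ f ∈ I, eval z f = 0}.Finite := by
  classical
  by_cases hI : I = ⊤
  · refine Set.finite_empty.subset fun z hz => ?_
    have h1 := hz 1 (by rw [hI]; trivial)
    simp at h1
  have : Nontrivial (MvPolynomial (Fin n) ℂ ⧸ I) := Ideal.Quotient.nontrivial_iff.2 hI
  have hsurj : Function.Surjective (Ideal.Quotient.mkₐ ℂ I) := Ideal.Quotient.mkₐ_surjective ℂ I
  have : Algebra.FiniteType ℂ (MvPolynomial (Fin n) ℂ ⧸ I) :=
    Algebra.FiniteType.of_surjective (Ideal.Quotient.mkₐ ℂ I) hsurj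
  obtain ⟨s, g, hginj, hgint⟩ :=
    exists_integral_inj_algHom_of_fg ℂ (MvPolynomial (Fin n) ℂ ⧸ I)
  -- evaluation of the point of a homomorphism
  have hev : ∀ (ψ : (MvPolynomial (Fin n) ℂ ⧸ I) →ₐ[ℂ] ℂ) (f : MvPolynomial (Fin n) ℂ),
      eval (fun i => ψ (Ideal.Quotient.mkₐ ℂ I (X i))) f = ψ (Ideal.Quotient.mkₐ ℂ I f) := by
    intro ψ f
    have h1 : (aeval (fun i => ψ (Ideal.Quotient.mkₐ ℂ I (X i))) :
        MvPolynomial (Fin n) ℂ →ₐ[ℂ] ℂ) = ψ.comp (Ideal.Quotient.mkₐ ℂ I) := by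
      ext i
      simp
    have h2 := congrArg (fun F => F f) h1
    simp only [AlgHom.comp_apply, aeval_eq_eval] at h2
    exact h2
  have hzero : ∀ (ψ : (MvPolynomial (Fin n) ℂ ⧸ I) →ₐ[ℂ] ℂ), ∀ f ∈ I,
      eval (fun i => ψ (Ideal.Quotient.mkₐ ℂ I (X i))) f = 0 := by
    intro ψ f hf
    rw [hev]
    have h1 : Ideal.Quotient.mkₐ ℂ I f = 0 := by
      rw [Ideal.Quotient.mkₐ_eq_mk]
      exact Ideal.Quotient.eq_zero_iff_mem.2 hf
    rw [h1, map_zero]
  rcases Nat.eq_zero_or_pos s with hs | hs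
  · subst hs
    have hfin := GC.NearAux.finite_fibre g hgint (fun _ => 0)
    refine (hfin.image fun ψ => fun i => ψ (Ideal.Quotient.mkₐ ℂ I (X i))).subset ?_
    intro z hz
    let ψ : (MvPolynomial (Fin n) ℂ ⧸ I) →ₐ[ℂ] ℂ :=
      Ideal.Quotient.liftₐ I (aeval z) fun f hf => by
        rw [aeval_eq_eval]
        exact hz f hf
    refine ⟨ψ, ?_, ?_⟩
    · intro p
      have h1 : ψ.comp g = aeval (fun _ => (0 : ℂ)) := by
        ext j
        exact j.elim0
      have h2 := congrArg (fun F => F p) h1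
      simp only [AlgHom.comp_apply, aeval_eq_eval] at h2
      exact h2
    · funext i
      change ψ (Ideal.Quotient.mkₐ ℂ I (X i)) = z i
      have h3 : ψ (Ideal.Quotient.mkₐ ℂ I (X i)) = aeval z (X i : MvPolynomial (Fin n) ℂ) := rfl
      rw [h3, aeval_X]
  · exfalso
    obtain ⟨F, hF⟩ := hsurj (g (X ⟨0, hs⟩))
    obtain ⟨c, hc⟩ := (isCompact_closedBall (0 : Fin n → ℂ) R).exists_bound_of_continuousOn
      (MvPolynomial.continuous_eval F).continuousOn
    obtain ⟨ψ, hψ⟩ := exists_over g hginj hgint (fun _ => ((c + 1 : ℝ) : ℂ))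
    have h1 := hR _ (hzero ψ)
    have h2 := hc _ (mem_closedBall_zero_iff.2 h1)
    rw [hev, hF, hψ, eval_X] at h2
    rw [Complex.norm_real, Real.norm_eq_abs] at h2
    have := le_abs_self (c + 1)
    linarith

end Pool.Agent.Lib.MP_209724_lc.GE
end

section

namespace Pool.Agent.Lib.MP_209724_lc.GE

open MvPolynomial Filter Topology Metric Set

variable {n d : ℕ}

/-- **Spheres which avoid the fibre.**

Proof. Let `Y` be the set of `z ∈ V(q)` with `∑_i m j i (z_i - z₁_i) = 0` for all `j`: the zero set of the ideal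
`q ⊔ span {∑_i C (m j i) * X i - C (∑_i m j i z₁_i)}`. It is bounded: otherwise there are `z_ν ∈ Y` with
`‖z_ν‖ → ∞`, and a subsequence of `z_ν / ‖z_ν‖ ∈ V(q)` (`hcon`) converges to some `z` with `‖z‖ = 1`,
`z ∈ V(q)` (closed) and `∑_i m j i z_i = lim (∑_i m j i z₁_i) / ‖z_ν‖ = 0`, against `hpp`. So `Y` is finite
(`finite_of_bounded`) and `ρ' ∈ (0, ρ)` can be chosen outside of the finite set of the numbers
`‖z - z₁‖`, `z ∈ Y`. -/
theorem exists_sphere (q : Ideal (MvPolynomial (Fin n) ℂ))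
    (hcon : ∀ z : Fin n → ℂ, (∀ f ∈ q, eval z f = 0) → ∀ s : ℂ, ∀ f ∈ q, eval (s • z) f = 0)
    (m : Fin d → Fin n → ℤ)
    (hpp : ∀ z : Fin n → ℂ, (∀ f ∈ q, eval z f = 0) → (∀ j, ∑ i, (m j i : ℂ) * z i = 0) → z = 0)
    (z₁ : Fin n → ℂ) {ρ : ℝ} (hρ : 0 < ρ) :
    ∃ ρ' : ℝ, 0 < ρ' ∧ ρ' < ρ ∧ ∀ z : Fin n → ℂ, (∀ f ∈ q, eval z f = 0) → ‖z - z₁‖ = ρ' →
      ∃ j, ∑ i, (m j i : ℂ) * (z i - z₁ i) ≠ 0 := by
  obtain ⟨g, hg⟩ : ∃ g : Fin d → MvPolynomial (Fin n) ℂ, g = fun j =>
      ∑ i, C (m j i : ℂ) * X i - C (∑ i, (m j i : ℂ) * z₁ i) := ⟨_, rfl⟩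
  have hge : ∀ j z, eval z (g j) = ∑ i, (m j i : ℂ) * z i - ∑ i, (m j i : ℂ) * z₁ i := by
    intro j z
    rw [hg]
    simp only [map_sub, map_sum, map_mul, eval_C, eval_X]
  obtain ⟨I, hI⟩ : ∃ I : Ideal (MvPolynomial (Fin n) ℂ), I = q ⊔ Ideal.span (Set.range g) :=
    ⟨_, rfl⟩
  have hIq : ∀ z, (∀ f ∈ I, eval z f = 0) → ∀ f ∈ q, eval z f = 0 := by
    intro z hz f hf
    apply hz
    rw [hI]
    exact Ideal.mem_sup_left hf
  have hIg : ∀ z, (∀ f ∈ I, eval z f = 0) → ∀ j, ∑ i, (m j i : ℂ) * z i =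
      ∑ i, (m j i : ℂ) * z₁ i := by
    intro z hz j
    have h1 : eval z (g j) = 0 := by
      apply hz
      rw [hI]
      exact Ideal.mem_sup_right (Ideal.subset_span ⟨j, rfl⟩)
    rw [hge] at h1
    exact sub_eq_zero.1 h1
  have hbd : ∃ R : ℝ, ∀ z : Fin n → ℂ, (∀ f ∈ I, eval z f = 0) → ‖z‖ ≤ R := by
    by_contra hcc
    push Not at hcc
    have h1 : ∀ ν : ℕ, ∃ z : Fin n → ℂ, (∀ f ∈ I, eval z f = 0) ∧ (ν : ℝ) + 1 < ‖z‖ := fun ν =>
      hcc ((ν : ℝ) + 1)
    choose Z hZ0 hZ1 using h1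
    have hpos : ∀ ν, 0 < ‖Z ν‖ := fun ν => lt_trans (by positivity) (hZ1 ν)
    obtain ⟨w, hw⟩ : ∃ w : ℕ → Fin n → ℂ, w = fun ν => ((‖Z ν‖⁻¹ : ℝ) : ℂ) • Z ν := ⟨_, rfl⟩
    have hw1 : ∀ ν, w ν ∈ sphere (0 : Fin n → ℂ) 1 := by
      intro ν
      rw [mem_sphere_zero_iff_norm, hw]
      change ‖((‖Z ν‖⁻¹ : ℝ) : ℂ) • Z ν‖ = 1
      rw [norm_smul, Complex.norm_real, Real.norm_of_nonneg (inv_nonneg.2 (norm_nonneg _)),
        inv_mul_cancel₀ (hpos ν).ne']
    obtain ⟨a, ha, φ, hφ, hlim⟩ := (isCompact_sphere (0 : Fin n → ℂ) 1).tendsto_subseq hw1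
    have ha1 : ‖a‖ = 1 := mem_sphere_zero_iff_norm.1 ha
    have haq : ∀ f ∈ q, eval a f = 0 := by
      intro f hf
      have h2 : Tendsto (fun ν => eval ((w ∘ φ) ν) f) atTop (𝓝 (eval a f)) :=
        ((MvPolynomial.continuous_eval f).tendsto a).comp hlim
      have h3 : ∀ ν, eval ((w ∘ φ) ν) f = 0 := by
        intro ν
        rw [hw]
        exact hcon (Z (φ ν)) (hIq _ (hZ0 _)) _ f hf
      simp only [h3] at h2
      exact tendsto_nhds_unique h2 tendsto_const_nhds
    have hinv : Tendsto (fun ν => ((‖Z (φ ν)‖⁻¹ : ℝ) : ℂ)) atTop (𝓝 0) := by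
      have h2 : Tendsto (fun ν => ‖Z ν‖) atTop atTop :=
        tendsto_atTop_mono (fun ν => (lt_trans (lt_add_one (ν : ℝ)) (hZ1 ν)).le)
          tendsto_natCast_atTop_atTop
      have h3 : Tendsto (fun ν => ‖Z (φ ν)‖⁻¹) atTop (𝓝 0) :=
        tendsto_inv_atTop_zero.comp (h2.comp hφ.tendsto_atTop)
      have h4 := (Complex.continuous_ofReal.tendsto 0).comp h3
      rw [Complex.ofReal_zero] at h4
      exact h4
    have haz : ∀ j, ∑ i, (m j i : ℂ) * a i = 0 := by
      intro j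
      have h2 : Tendsto (fun ν => ∑ i, (m j i : ℂ) * (w ∘ φ) ν i) atTop
          (𝓝 (∑ i, (m j i : ℂ) * a i)) := by
        refine tendsto_finsetSum _ fun i _ => Tendsto.const_mul _ ?_
        exact ((continuous_apply i).tendsto a).comp hlim
      have h3 : ∀ ν, ∑ i, (m j i : ℂ) * (w ∘ φ) ν i =
          ((‖Z (φ ν)‖⁻¹ : ℝ) : ℂ) * ∑ i, (m j i : ℂ) * z₁ i := by
        intro ν
        rw [← hIg _ (hZ0 (φ ν)) j, Finset.mul_sum]
        refine Finset.sum_congr rfl fun i _ => ?_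
        rw [hw]
        simp only [Function.comp_apply, Pi.smul_apply, smul_eq_mul]
        ring
      simp only [h3] at h2
      have h4 := hinv.mul_const (∑ i, (m j i : ℂ) * z₁ i)
      rw [zero_mul] at h4
      exact tendsto_nhds_unique h2 h4
    have h0 := hpp a haq haz
    rw [h0, norm_zero] at ha1
    exact zero_ne_one ha1
  obtain ⟨R, hR⟩ := hbd
  have hfin := finite_of_bounded I hR
  have hfin2 : ((fun z : Fin n → ℂ => ‖z - z₁‖) '' {z : Fin n → ℂ | ∀ f ∈ I, eval z f = 0}).Finite :=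
    hfin.image _
  obtain ⟨ρ', hρ', hn⟩ := (Set.Ioo_infinite hρ).exists_notMem_finite hfin2
  refine ⟨ρ', hρ'.1, hρ'.2, fun z hz hzn => ?_⟩
  by_contra hcc
  push Not at hcc
  apply hn
  refine ⟨z, ?_, hzn⟩
  intro f hf
  rw [hI] at hf
  have hker : q ⊔ Ideal.span (Set.range g) ≤ RingHom.ker (eval z) := by
    rw [sup_le_iff]
    constructor
    · intro f hf
      exact hz f hf
    · rw [Ideal.span_le]
      rintro _ ⟨j, rfl⟩
      change eval z (g j) = 0
      rw [hge, ← Finset.sum_sub_distrib, ← hcc j]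
      refine Finset.sum_congr rfl fun i _ => ?_
      ring
  exact hker hf

end Pool.Agent.Lib.MP_209724_lc.GE
end

section

namespace Pool.Agent.Lib.MP_209724_lc.GE

open MvPolynomial Filter Topology Metric Set
open GC (prj)
open GP (OnV OnW)

variable {n : ℕ}

private theorem ties_rel {L : Type} [Field L] [Algebra ℂ L] {ξ υ : Fin n → L}
    {S : Finset (Fin n → ℕ)} {c : (Fin n → ℕ) → MvPolynomial (Fin n) ℂ}
    (h : ∑ α ∈ S, aeval ξ (c α) * ∏ i, υ i ^ α i = 0) {x y : Fin n → ℂ} (hV : OnV ξ υ x y) :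
    ∑ α ∈ S, eval x (c α) * ∏ i, y i ^ α i = 0 := by
  have h1 := hV (∑ α ∈ S, rename Sum.inl (c α) * ∏ i, X (Sum.inr i) ^ α i) (by
    rw [map_sum, ← h]
    refine Finset.sum_congr rfl fun α _ => ?_
    rw [map_mul, aeval_rename, Sum.elim_comp_inl, map_prod]
    congr 1
    refine Finset.prod_congr rfl fun i _ => ?_
    rw [map_pow, aeval_X, Sum.elim_inr])
  rw [map_sum] at h1
  rw [← h1]
  refine Finset.sum_congr rfl fun α _ => ?_
  rw [map_mul, eval_rename, Sum.elim_comp_inl, map_prod]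
  congr 1
  refine Finset.prod_congr rfl fun i _ => ?_
  rw [map_pow, eval_X, Sum.elim_inr]

private theorem ties_max {ι : Type} [DecidableEq ι] {S : Finset ι} (hS : S.Nonempty) {T : ι → ℂ}
    (h0 : ∀ a ∈ S, T a ≠ 0) (hT : ∑ a ∈ S, T a = 0) :
    ∃ a ∈ S, ∃ b ∈ S, a ≠ b ∧
      |Real.log ‖T a‖ - Real.log ‖T b‖| ≤ Real.log (S.card : ℝ) := by
  obtain ⟨a, ha, hmax⟩ := S.exists_max_image (fun a => ‖T a‖) hS
  by_contra hcon
  push Not at hcon
  have hN : (0 : ℝ) < S.card := by exact_mod_cast hS.card_pos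
  have hTa : 0 < ‖T a‖ := norm_pos_iff.2 (h0 a ha)
  have h1 : ∀ b ∈ S.erase a, (S.card : ℝ) * ‖T b‖ ≤ ‖T a‖ := by
    intro b hb
    have hb' := Finset.mem_erase.1 hb
    have h2 := hcon a ha b hb'.2 hb'.1.symm
    have hTb : 0 < ‖T b‖ := norm_pos_iff.2 (h0 b hb'.2)
    have h3 : Real.log ‖T b‖ ≤ Real.log ‖T a‖ := Real.log_le_log hTb (hmax b hb'.2)
    rw [abs_of_nonneg (by linarith)] at h2
    have h4 : Real.log ((S.card : ℝ) * ‖T b‖) < Real.log ‖T a‖ := by
      rw [Real.log_mul hN.ne' hTb.ne']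
      linarith
    exact ((Real.log_lt_log_iff (mul_pos hN hTb) hTa).1 h4).le
  have h2 : T a = -∑ b ∈ S.erase a, T b := by
    rw [← Finset.add_sum_erase S T ha] at hT
    exact eq_neg_of_add_eq_zero_left hT
  have h3 : ‖T a‖ ≤ ∑ b ∈ S.erase a, ‖T b‖ := by
    rw [h2, norm_neg]
    exact norm_sum_le _ _
  have h4 : (S.card : ℝ) * ‖T a‖ ≤ ∑ b ∈ S.erase a, ‖T a‖ := by
    refine (mul_le_mul_of_nonneg_left h3 hN.le).trans ?_
    rw [Finset.mul_sum]
    exact Finset.sum_le_sum h1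
  rw [Finset.sum_const, nsmul_eq_mul, Finset.card_erase_of_mem ha] at h4
  have h5 : ((S.card - 1 : ℕ) : ℝ) < S.card := by
    have := hS.card_pos
    exact_mod_cast Nat.sub_lt this one_pos
  have h6 := mul_lt_mul_of_pos_right h5 hTa
  linarith

/-- **Ties.** Proof. Let `(r, v)` be the sequence of `w`, `v ν = (x, y)`. For all `ν`,
`∑_{α ∈ S} eval x (c α) * ∏ y_i ^ α_i = 0` (`OnV` for the polynomial
`∑ rename Sum.inl (c α) * ∏ X (Sum.inr i) ^ α i`, as in `GP.OnV.rel`). For large `ν` all terms are nonzero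
(`hc`, `y ≠ 0`). Let `α_ν ∈ S` have the largest term and `β_ν ∈ S \ {α_ν}` the largest of the others: its
absolute value is at least `1 / card S` of the first. By pigeonhole there are `α ≠ β` in `S` with
`(α_ν, β_ν) = (α, β)` for infinitely many `ν` (`Filter.frequently` over a finite set). For these
`| ∑_i (α_i - β_i) log ‖y_i‖ | ≤ log (card S) + 2 C log (r ν)`, `C` from `hc`. Divide by `r ν`: the right side
tends to `0`, `log ‖y_i‖ / r ν → (w.1 i).re - w.2 i` (by definition of `uu`). -/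
theorem ties {L : Type} [Field L] [Algebra ℂ L] {ξ υ : Fin n → L}
    {P : MvPolynomial (Fin n ⊕ Fin n) ℂ} {w : (Fin n → ℂ) × (Fin n → ℝ)} (hw : w ∈ Lim ξ υ P)
    {S : Finset (Fin n → ℕ)} {c : (Fin n → ℕ) → MvPolynomial (Fin n) ℂ} (hS : S.Nonempty)
    (hrel : ∑ α ∈ S, aeval ξ (c α) * ∏ i, υ i ^ α i = 0)
    (hc : ∀ α ∈ S, PolyBd ξ w.1 (c α)) :
    ∃ α ∈ S, ∃ β ∈ S, α ≠ β ∧ ∑ i, ((α i : ℝ) - β i) * ((w.1 i).re - w.2 i) = 0 := by
  classical
  obtain ⟨r, v, hr, hrt, hv, h1, h2, -⟩ := hw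
  by_contra hcon
  push Not at hcon
  -- the logarithms of `y`
  have hy : ∀ i, Tendsto (fun ν => (r ν)⁻¹ * Real.log ‖(v ν).2 i‖) atTop
      (𝓝 ((w.1 i).re - w.2 i)) := by
    intro i
    have h3 : Tendsto (fun ν => (((r ν)⁻¹ • (v ν).1) i).re) atTop (𝓝 (w.1 i).re) :=
      (Complex.continuous_re.tendsto _).comp ((tendsto_pi_nhds.1 h1) i)
    have h4 : Tendsto (fun ν => ((r ν)⁻¹ • uu (v ν)) i) atTop (𝓝 (w.2 i)) :=
      (tendsto_pi_nhds.1 h2) i
    refine (h3.sub h4).congr fun ν => ?_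
    rw [Pi.smul_apply, Pi.smul_apply, Complex.real_smul, Complex.re_ofReal_mul, uu, smul_eq_mul]
    ring
  -- the coefficients
  have hcoef : ∀ α ∈ S, (∀ᶠ ν in atTop, eval (v ν).1 (c α) ≠ 0) ∧
      Tendsto (fun ν => (r ν)⁻¹ * Real.log ‖eval (v ν).1 (c α)‖) atTop (𝓝 0) := by
    intro α hα
    obtain ⟨C, hC⟩ := hc α hα r (fun ν => (v ν).1) hr hrt (fun ν => (hv ν).1.onW) h1
    have h3 : ∀ᶠ ν in atTop, 0 < ‖eval (v ν).1 (c α)‖ := by
      filter_upwards [hC] with ν hν
      exact (inv_pos.2 (pow_pos (hr ν) C)).trans_le hν.1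
    refine ⟨h3.mono fun ν hν => norm_pos_iff.1 hν, ?_⟩
    have h4 : Tendsto (fun ν => (C : ℝ) * (Real.log (r ν) / r ν)) atTop (𝓝 0) := by
      have h5 : Tendsto (fun ν => Real.log (r ν) / r ν) atTop (𝓝 0) :=
        (Real.isLittleO_log_id_atTop.tendsto_div_nhds_zero).comp hrt
      have h6 := h5.const_mul (C : ℝ)
      rwa [mul_zero] at h6
    refine squeeze_zero_norm' ?_ h4
    filter_upwards [hC, h3, hrt.eventually_ge_atTop 1] with ν hν hν2 hν3
    have hrp := hr ν
    have h7 : Real.log ‖eval (v ν).1 (c α)‖ ≤ C * Real.log (r ν) := by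
      rw [← Real.log_pow]
      exact Real.log_le_log hν2 hν.2
    have h8 : -(C * Real.log (r ν)) ≤ Real.log ‖eval (v ν).1 (c α)‖ := by
      rw [← Real.log_pow, ← Real.log_inv]
      exact Real.log_le_log (inv_pos.2 (pow_pos hrp C)) hν.1
    have h9 : |Real.log ‖eval (v ν).1 (c α)‖| ≤ C * Real.log (r ν) := abs_le.2 ⟨h8, h7⟩
    rw [Real.norm_eq_abs, abs_mul, abs_of_pos (inv_pos.2 hrp)]
    calc (r ν)⁻¹ * |Real.log ‖eval (v ν).1 (c α)‖| ≤ (r ν)⁻¹ * (C * Real.log (r ν)) :=
          mul_le_mul_of_nonneg_left h9 (inv_pos.2 hrp).le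
      _ = (C : ℝ) * (Real.log (r ν) / r ν) := by ring
  -- the logarithms of the terms
  set T : ℕ → (Fin n → ℕ) → ℂ := fun ν α => eval (v ν).1 (c α) * ∏ i, (v ν).2 i ^ α i with hT
  have hprod : ∀ ν (α : Fin n → ℕ), ∏ i, (v ν).2 i ^ α i ≠ 0 := fun ν α =>
    Finset.prod_ne_zero_iff.2 fun i _ => pow_ne_zero _ ((hv ν).2.1 i)
  have hlim : ∀ α ∈ S, Tendsto (fun ν => (r ν)⁻¹ * Real.log ‖T ν α‖) atTop
      (𝓝 (∑ i, (α i : ℝ) * ((w.1 i).re - w.2 i))) := by
    intro α hα
    have h3 := (hcoef α hα).2.add (tendsto_finsetSum Finset.univ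
      fun i _ => (hy i).const_mul (α i : ℝ))
    rw [zero_add] at h3
    refine h3.congr' ?_
    filter_upwards [(hcoef α hα).1] with ν hν
    have h4 : Real.log ‖T ν α‖ = Real.log ‖eval (v ν).1 (c α)‖ +
        ∑ i, (α i : ℝ) * Real.log ‖(v ν).2 i‖ := by
      rw [hT]
      simp only
      rw [norm_mul, Real.log_mul (norm_pos_iff.2 hν).ne' (norm_pos_iff.2 (hprod ν α)).ne',
        norm_prod, Real.log_prod (fun i _ => by
          rw [norm_pow]
          exact pow_ne_zero _ (norm_pos_iff.2 ((hv ν).2.1 i)).ne')]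
      congr 1
      refine Finset.sum_congr rfl fun i _ => ?_
      rw [norm_pow, Real.log_pow]
    rw [h4, mul_add, Finset.mul_sum]
    congr 1
    refine Finset.sum_congr rfl fun i _ => ?_
    ring
  have hN0 : Tendsto (fun ν => (r ν)⁻¹ * Real.log (S.card : ℝ)) atTop (𝓝 0) := by
    have h3 := (tendsto_inv_atTop_zero.comp hrt).mul_const (Real.log (S.card : ℝ))
    rwa [zero_mul] at h3
  have hpair : ∀ α ∈ S, ∀ β ∈ S, α ≠ β → ∀ᶠ ν in atTop,
      Real.log (S.card : ℝ) < |Real.log ‖T ν α‖ - Real.log ‖T ν β‖| := by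
    intro α hα β hβ hne
    have h3 := ((hlim α hα).sub (hlim β hβ)).abs
    have hD : 0 < |∑ i, (α i : ℝ) * ((w.1 i).re - w.2 i) -
        ∑ i, (β i : ℝ) * ((w.1 i).re - w.2 i)| := by
      rw [← Finset.sum_sub_distrib]
      refine abs_pos.2 fun h0 => hcon α hα β hβ hne ?_
      rw [← h0]
      refine Finset.sum_congr rfl fun i _ => ?_
      ring
    have h4 := h3.sub hN0
    rw [sub_zero] at h4
    filter_upwards [h4.eventually (eventually_gt_nhds hD)] with ν hν
    have hrp := inv_pos.2 (hr ν)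
    rw [← mul_sub, abs_mul, abs_of_pos hrp, ← mul_sub] at hν
    have h5 := (mul_pos_iff_of_pos_left hrp).1 hν
    linarith
  have hall : ∀ᶠ ν in atTop, (∀ α ∈ S, eval (v ν).1 (c α) ≠ 0) ∧
      ∀ α ∈ S, ∀ β ∈ S, α ≠ β →
        Real.log (S.card : ℝ) < |Real.log ‖T ν α‖ - Real.log ‖T ν β‖| := by
    refine Filter.Eventually.and ?_ ?_
    · exact (Filter.eventually_all_finset S).2 fun α hα => (hcoef α hα).1
    · refine (Filter.eventually_all_finset S).2 fun α hα => ?_
      refine (Filter.eventually_all_finset S).2 fun β hβ => ?_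
      by_cases hne : α = β
      · exact Filter.Eventually.of_forall fun ν h => absurd hne h
      · exact (hpair α hα β hβ hne).mono fun ν h _ => h
  obtain ⟨ν, hν1, hν2⟩ := hall.exists
  obtain ⟨α, hα, β, hβ, hne, hle⟩ := ties_max (T := T ν) hS
    (fun α hα => mul_ne_zero (hν1 α hα) (hprod ν α)) (ties_rel hrel (hv ν).1)
  exact absurd hle (not_le.2 (hν2 α hα β hβ hne))

end Pool.Agent.Lib.MP_209724_lc.GE
end

section

namespace Pool.Agent.Lib.MP_209724_lc.GF

open MvPolynomial Filter Topology Metric Set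

variable {n d k : ℕ}

/-- **Pigeonhole on the types of the centers.** If the set `Cen` is Zariski dense in the zero set of `q` (in
the sense of `hCen`), then there is one type `(Φ, Φ')` of faces such that the points of `Cen` of this type
are Zariski dense.

Proof. The types `(fac (S j) (Re z))_j, (fac (S' j) (Re z))_j` are in the finite set `T` of pairs of
functions `(Φ, Φ')` with `Φ j ⊆ S j`, `Φ' j ⊆ S' j` (`Fintype.piFinset` of the powersets). If the claim is
false, for each `τ ∈ T` there is `f τ ∉ q` which vanishes at all points of `Cen` of type `τ`. The product `f`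
of the `f τ` is not in `q` (`Ideal.IsPrime.prod_mem_iff`), so by `hCen` there is `z ∈ Cen` with `f(z) ≠ 0`;
let `τ` be its type: `f τ (z) = 0`, a contradiction. -/
theorem exists_type {J J' : Type} [Fintype J] [Fintype J'] (S : J → Finset (Fin n → ℕ))
    (S' : J' → Finset (Fin n → ℕ)) (q : Ideal (MvPolynomial (Fin n) ℂ)) [q.IsPrime]
    (Cen : Set (Fin n → ℂ)) (hCen : ∀ f ∉ q, ∃ z ∈ Cen, eval z f ≠ 0) :
    ∃ (Φ : J → Finset (Fin n → ℕ)) (Φ' : J' → Finset (Fin n → ℕ)), ∀ f ∉ q, ∃ z ∈ Cen,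
      (∀ j, fac (S j) (fun i => (z i).re) = Φ j) ∧
      (∀ j, fac (S' j) (fun i => (z i).re) = Φ' j) ∧ eval z f ≠ 0 := by
  classical
  by_contra hcon
  push Not at hcon
  choose f hf hz using hcon
  obtain ⟨P, hP⟩ : ∃ P : Finset ((J → Finset (Fin n → ℕ)) × (J' → Finset (Fin n → ℕ))),
      P = Fintype.piFinset (fun j => (S j).powerset) ×ˢ
        Fintype.piFinset (fun j => (S' j).powerset) := ⟨_, rfl⟩
  have hF : ∏ τ ∈ P, f τ.1 τ.2 ∉ q := by
    rw [Ideal.IsPrime.prod_mem_iff]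
    rintro ⟨τ, -, h⟩
    exact hf τ.1 τ.2 h
  obtain ⟨z, hzC, hz0⟩ := hCen _ hF
  rw [map_prod] at hz0
  refine hz0 (Finset.prod_eq_zero (i := ((fun j => fac (S j) (fun i => (z i).re)),
    (fun j => fac (S' j) (fun i => (z i).re)))) ?_ ?_)
  · rw [hP, Finset.mem_product, Fintype.mem_piFinset, Fintype.mem_piFinset]
    refine ⟨fun j => ?_, fun j => ?_⟩
    · rw [Finset.mem_powerset]
      exact fun α hα => (mem_fac.1 hα).1
    · rw [Finset.mem_powerset]
      exact fun α hα => (mem_fac.1 hα).1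
  · exact hz _ _ z hzC (fun j => rfl) (fun j => rfl)

/-- **The rows.** The differences of the elements of the `Φ I` and of the `Φ' j`, numbered by `Fin N`; `d` of
them are linearly independent.

Proof. The set of all the vectors `α - β : Fin n → ℤ` with `α, β ∈ Φ I` for some `I` or `α, β ∈ Φ' j` for some
`j` is finite; number it (`Finset.equivFin`). By `h2` choose `α I ≠ β I` in `Φ I`; the vectors `α I - β I` are
nonzero with support in `I` (`hΦ`, `hS`), so by `GP.exists_rows` `d` of them are linearly independent. -/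
theorem exists_rowsK (hdk : d + k = n)
    (Φ : {I : Finset (Fin n) // I.card = k + 1} → Finset (Fin n → ℕ))
    (hΦ : ∀ I, ∀ α ∈ Φ I, ∀ i, i ∉ I.1 → α i = 0)
    (h2 : ∀ I, ∃ α ∈ Φ I, ∃ β ∈ Φ I, α ≠ β) {J' : Type} [Fintype J']
    (Φ' : J' → Finset (Fin n → ℕ)) :
    ∃ (N : ℕ) (m : Fin N → Fin n → ℤ) (s : Fin d → Fin N),
      LinearIndependent ℤ (fun j => m (s j)) ∧
      (∀ l, (∃ I, ∃ α ∈ Φ I, ∃ β ∈ Φ I, m l = fun i => (α i : ℤ) - β i) ∨
        ∃ j, ∃ α ∈ Φ' j, ∃ β ∈ Φ' j, m l = fun i => (α i : ℤ) - β i) ∧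
      (∀ I, ∀ α ∈ Φ I, ∀ β ∈ Φ I, ∃ l, m l = fun i => (α i : ℤ) - β i) ∧
      ∀ j, ∀ α ∈ Φ' j, ∀ β ∈ Φ' j, ∃ l, m l = fun i => (α i : ℤ) - β i := by
  classical
  choose α hα β hβ hne using h2
  obtain ⟨s0, hs0⟩ := GP.exists_rows hdk (fun I i => (α I i : ℤ) - β I i)
    (by
      intro I h0
      apply hne I
      funext i
      have h1 := congrFun h0 i
      simp only [Pi.zero_apply, sub_eq_zero, Nat.cast_inj] at h1
      exact h1)
    (by
      intro I i hi
      simp only [hΦ I _ (hα I) i hi, hΦ I _ (hβ I) i hi, sub_self])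
  obtain ⟨A, hA⟩ : ∃ A : Finset (Fin n → ℤ), ∀ v, v ∈ A ↔
      (∃ I, ∃ α ∈ Φ I, ∃ β ∈ Φ I, v = fun i => (α i : ℤ) - β i) ∨
        ∃ j, ∃ α ∈ Φ' j, ∃ β ∈ Φ' j, v = fun i => (α i : ℤ) - β i := by
    refine ⟨(Finset.univ.biUnion fun I => ((Φ I) ×ˢ (Φ I)).image
      fun p i => (p.1 i : ℤ) - p.2 i) ∪ (Finset.univ.biUnion fun j => ((Φ' j) ×ˢ (Φ' j)).image
      fun p i => (p.1 i : ℤ) - p.2 i), fun v => ?_⟩
    rw [Finset.mem_union, Finset.mem_biUnion, Finset.mem_biUnion]
    constructor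
    · rintro (⟨I, -, h⟩ | ⟨I, -, h⟩)
      · obtain ⟨⟨a, b⟩, hab, rfl⟩ := Finset.mem_image.1 h
        rw [Finset.mem_product] at hab
        exact Or.inl ⟨I, a, hab.1, b, hab.2, rfl⟩
      · obtain ⟨⟨a, b⟩, hab, rfl⟩ := Finset.mem_image.1 h
        rw [Finset.mem_product] at hab
        exact Or.inr ⟨I, a, hab.1, b, hab.2, rfl⟩
    · rintro (⟨I, a, ha, b, hb, rfl⟩ | ⟨I, a, ha, b, hb, rfl⟩)
      · exact Or.inl ⟨I, Finset.mem_univ _, Finset.mem_image.2
          ⟨(a, b), Finset.mem_product.2 ⟨ha, hb⟩, rfl⟩⟩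
      · exact Or.inr ⟨I, Finset.mem_univ _, Finset.mem_image.2
          ⟨(a, b), Finset.mem_product.2 ⟨ha, hb⟩, rfl⟩⟩
  have hmemA : ∀ I, (fun i => (α I i : ℤ) - β I i) ∈ A := fun I =>
    (hA _).2 (Or.inl ⟨I, α I, hα I, β I, hβ I, rfl⟩)
  refine ⟨A.card, fun l => (A.equivFin.symm l).1,
    fun j => A.equivFin ⟨_, hmemA (s0 j)⟩, ?_, ?_, ?_, ?_⟩
  · have h1 : (fun j => ((A.equivFin.symm (A.equivFin ⟨_, hmemA (s0 j)⟩)).1 : Fin n → ℤ)) =
        fun j => (fun i => (α (s0 j) i : ℤ) - β (s0 j) i) := by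
      funext j
      rw [Equiv.symm_apply_apply]
    rw [h1]
    exact hs0
  · intro l
    exact (hA _).1 (A.equivFin.symm l).2
  · intro I a ha b hb
    refine ⟨A.equivFin ⟨_, (hA _).2 (Or.inl ⟨I, a, ha, b, hb, rfl⟩)⟩, ?_⟩
    exact congrArg Subtype.val (A.equivFin.symm_apply_apply _)
  · intro j a ha b hb
    refine ⟨A.equivFin ⟨_, (hA _).2 (Or.inr ⟨j, a, ha, b, hb, rfl⟩)⟩, ?_⟩
    exact congrArg Subtype.val (A.equivFin.symm_apply_apply _)

end Pool.Agent.Lib.MP_209724_lc.GF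
end

section

namespace Pool.Agent.Lib.MP_209724_lc.GE

open MvPolynomial Filter Topology Metric Set
open GC (prj cone)
open GP (OnV OnW)

variable {n k : ℕ}

private theorem cenA_alg {L : Type} [Field L] [Algebra ℂ L] (R : Subalgebra ℂ L) (S : Set L)
    (hS : ∀ s ∈ S, IsAlgebraic R s) {z : L} (hz : z ∈ Algebra.adjoin ℂ S) : IsAlgebraic R z := by
  induction hz using Algebra.adjoin_induction with
  | mem x hx => exact hS x hx
  | algebraMap x =>
    exact isAlgebraic_algebraMap (⟨algebraMap ℂ L x, Subalgebra.algebraMap_mem _ x⟩ : R)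
  | add x y _ _ hx hy => exact hx.add hy
  | mul x y _ _ hx hy => exact hx.mul hy

/-- Extend a vector by a last coordinate. -/
private def cenA_sn {S : Type} (x : Fin n → S) (a : S) : Fin (n + 1) → S :=
  Fin.snoc (α := fun _ => S) x a

private theorem cenA_cs {S : Type} (x : Fin n → S) (a : S) (i : Fin n) :
    cenA_sn x a i.castSucc = x i := Fin.snoc_castSucc (α := fun _ => S) a x i

private theorem cenA_la {S : Type} (x : Fin n → S) (a : S) :
    cenA_sn x a (Fin.last n) = a := Fin.snoc_last (α := fun _ => S) a x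

private noncomputable def cenA_sub : MvPolynomial (Fin (n + 1)) ℂ →ₐ[ℂ] MvPolynomial (Fin n) ℂ :=
  aeval (cenA_sn (fun i => X i) 0)

private theorem cenA_aeval_sub {S : Type} [CommRing S] [Algebra ℂ S] (x : Fin n → S)
    (f : MvPolynomial (Fin (n + 1)) ℂ) : aeval x (cenA_sub f) = aeval (cenA_sn x 0) f := by
  have h : (aeval x).comp (cenA_sub (n := n)) = (aeval (cenA_sn x 0) :
      MvPolynomial (Fin (n + 1)) ℂ →ₐ[ℂ] S) := by
    apply MvPolynomial.algHom_ext
    intro i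
    refine Fin.lastCases ?_ (fun i => ?_) i
    · simp only [AlgHom.comp_apply, cenA_sub, aeval_X, cenA_la, map_zero]
    · simp only [AlgHom.comp_apply, cenA_sub, aeval_X, cenA_cs]
  exact congrArg (fun u => u f) h

private theorem cenA_eval_sub (x : Fin n → ℂ) (f : MvPolynomial (Fin (n + 1)) ℂ) :
    eval x (cenA_sub f) = eval (cenA_sn x 0) f := by
  have h := cenA_aeval_sub x f
  rwa [aeval_eq_eval, aeval_eq_eval] at h

private theorem cenA_norm (x : Fin n → ℂ) : ‖cenA_sn x 0‖ = ‖x‖ := by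
  apply le_antisymm
  · refine (pi_norm_le_iff_of_nonneg (norm_nonneg _)).2 fun i => ?_
    refine Fin.lastCases ?_ (fun i => ?_) i
    · rw [cenA_la, norm_zero]
      exact norm_nonneg _
    · rw [cenA_cs]
      exact norm_le_pi_norm x i
  · refine (pi_norm_le_iff_of_nonneg (norm_nonneg _)).2 fun i => ?_
    have h := norm_le_pi_norm (cenA_sn x 0) i.castSucc
    rwa [cenA_cs] at h

private theorem cenA_elim {S : Type} (x y : Fin n → S) (a b : S) :
    (Sum.elim (cenA_sn x a) (cenA_sn y b)) ∘ Sum.map Fin.castSucc Fin.castSucc = Sum.elim x y := by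
  funext i
  rcases i with i | i
  · exact cenA_cs x a i
  · exact cenA_cs y b i

/-- **Points over `x` with `y`, `1 / y`, `1 / P` polynomially bounded.**

Proof. Apply `GP.exists_center` in `n + 1` dimensions to `ξ' = Fin.snoc ξ 0`, `υ' = Fin.snoc υ (P(ξ, υ))`,
`B' = Fin.castSucc ∘ B`, `D = 1`: `IntermediateField.adjoin ℂ (range ξ') = IntermediateField.adjoin ℂ (range ξ)`
and `υ' ∘ B' = υ ∘ B`, `Algebra.adjoin ℂ (range ξ' ∪ range (υ' ∘ B')) = Algebra.adjoin ℂ (range ξ ∪ range (υ ∘ B))`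
(or at least `≥`, and for the field `≤`, which are enough), `P(ξ, υ)` is algebraic over it because it is a
polynomial in the algebraic elements `ξ i, υ i`. It gives `g'` in `n + 1` variables; put
`g = g'(X_1, …, X_n, 0)` (`aeval (Fin.snoc X 0) g'`). For `x` on `W`, `x' = Fin.snoc x 0` is on the variety
with generic point `ξ'`; the point `y'` gives `y = y' ∘ castSucc`, and `y' (last) = P(x, y)` because the
polynomial `Y_last - P(X, Y)` vanishes at `(ξ', υ')`; `OnV ξ υ x y` similarly (rename). `‖x'‖ = ‖x‖`. -/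
theorem exists_center' {L : Type} [Field L] [Algebra ℂ L] (ξ υ : Fin n → L) (hυ : ∀ i, υ i ≠ 0)
    (B : Fin k → Fin n)
    (hB : AlgebraicIndependent (IntermediateField.adjoin ℂ (Set.range ξ)) fun j => υ (B j))
    (halg : ∀ i, IsAlgebraic (Algebra.adjoin ℂ (Set.range ξ ∪ Set.range fun j => υ (B j))) (υ i))
    (P : MvPolynomial (Fin n ⊕ Fin n) ℂ) (hP : aeval (Sum.elim ξ υ) P ≠ 0) :
    ∃ (g : MvPolynomial (Fin n) ℂ) (C : ℝ) (N : ℕ), aeval ξ g ≠ 0 ∧
      ∀ x : Fin n → ℂ, OnW ξ x → eval x g ≠ 0 →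
        ∃ y : Fin n → ℂ, OnV ξ υ x y ∧ (∀ i, y i ≠ 0) ∧ eval (Sum.elim x y) P ≠ 0 ∧
          (∀ i, ‖y i‖ ≤ C * (1 + ‖x‖) ^ N / ‖eval x g‖ ∧
            ‖(y i)⁻¹‖ ≤ C * (1 + ‖x‖) ^ N / ‖eval x g‖) ∧
          ‖(eval (Sum.elim x y) P)⁻¹‖ ≤ C * (1 + ‖x‖) ^ N / ‖eval x g‖ := by
  set ξ' : Fin (n + 1) → L := cenA_sn ξ 0 with hξ'
  set π : L := aeval (Sum.elim ξ υ) P with hπ
  set υ' : Fin (n + 1) → L := cenA_sn υ π with hυ'
  set B' : Fin k → Fin (n + 1) := fun j => (B j).castSucc with hB'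
  have hυB : (fun j => υ' (B' j)) = fun j => υ (B j) := by
    funext j
    exact cenA_cs υ π (B j)
  have hrange : ∀ (R : Subalgebra ℂ L), Set.range ξ ⊆ R → Set.range ξ' ⊆ R := by
    rintro R hR _ ⟨i, rfl⟩
    refine Fin.lastCases ?_ (fun i => ?_) i
    · rw [hξ', cenA_la]
      exact R.zero_mem
    · rw [hξ', cenA_cs]
      exact hR ⟨i, rfl⟩
  have hrange' : Set.range ξ ⊆ Set.range ξ' := by
    rintro _ ⟨i, rfl⟩
    exact ⟨i.castSucc, cenA_cs ξ 0 i⟩
  have hfield : IntermediateField.adjoin ℂ (Set.range ξ') =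
      IntermediateField.adjoin ℂ (Set.range ξ) := by
    apply le_antisymm
    · rw [IntermediateField.adjoin_le_iff]
      exact hrange (IntermediateField.adjoin ℂ (Set.range ξ)).toSubalgebra
        (IntermediateField.subset_adjoin _ _)
    · exact IntermediateField.adjoin.mono _ _ _ hrange'
  have hadj : Algebra.adjoin ℂ (Set.range ξ' ∪ Set.range fun j => υ' (B' j)) =
      Algebra.adjoin ℂ (Set.range ξ ∪ Set.range fun j => υ (B j)) := by
    rw [hυB]
    apply le_antisymm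
    · apply Algebra.adjoin_le
      apply Set.union_subset
      · exact hrange _ (Set.subset_union_left.trans Algebra.subset_adjoin)
      · exact Set.subset_union_right.trans Algebra.subset_adjoin
    · exact Algebra.adjoin_mono (Set.union_subset_union_left _ hrange')
  have hυ0 : ∀ i, υ' i ≠ 0 := by
    intro i
    refine Fin.lastCases ?_ (fun i => ?_) i
    · rw [hυ', cenA_la]
      exact hP
    · rw [hυ', cenA_cs]
      exact hυ i
  have hBi : AlgebraicIndependent (IntermediateField.adjoin ℂ (Set.range ξ'))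
      fun j => υ' (B' j) := by
    rw [hυB, hfield]
    exact hB
  have halg' : ∀ i, IsAlgebraic
      (Algebra.adjoin ℂ (Set.range ξ' ∪ Set.range fun j => υ' (B' j))) (υ' i) := by
    intro i
    rw [hadj]
    refine Fin.lastCases ?_ (fun i => ?_) i
    · rw [hυ', cenA_la]
      have h1 : π ∈ Algebra.adjoin ℂ (Set.range (Sum.elim ξ υ)) := by
        rw [Algebra.adjoin_range_eq_range_aeval]
        exact ⟨P, rfl⟩
      refine cenA_alg _ _ ?_ h1
      rintro _ ⟨i | i, rfl⟩
      · exact isAlgebraic_algebraMap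
          (⟨ξ i, Algebra.subset_adjoin (Or.inl ⟨i, rfl⟩)⟩ :
            Algebra.adjoin ℂ (Set.range ξ ∪ Set.range fun j => υ (B j)))
      · exact halg i
    · rw [hυ', cenA_cs]
      exact halg i
  obtain ⟨g', C, N, hg', hmain⟩ := GP.exists_center ξ' υ' hυ0 B' hBi halg' 1 (by
    rw [map_one]
    exact one_ne_zero)
  refine ⟨cenA_sub g', C, N, ?_, fun x hx hgx => ?_⟩
  · rw [cenA_aeval_sub]
    exact hg'
  · have hx' : OnW ξ' (cenA_sn x 0) := by
      intro f hf
      rw [← cenA_eval_sub]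
      apply hx
      rw [cenA_aeval_sub]
      exact hf
    rw [cenA_eval_sub] at hgx
    obtain ⟨y', hV, -, hy0, hb⟩ := hmain _ hx' hgx
    have hy' : y' = cenA_sn (fun i => y' i.castSucc) (y' (Fin.last n)) := by
      funext i
      refine Fin.lastCases ?_ (fun i => ?_) i
      · rw [cenA_la]
      · rw [cenA_cs]
    have hren : ∀ f : MvPolynomial (Fin n ⊕ Fin n) ℂ,
        aeval (Sum.elim ξ' υ') (rename (Sum.map Fin.castSucc Fin.castSucc) f) =
          aeval (Sum.elim ξ υ) f := by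
      intro f
      rw [aeval_rename, hξ', hυ', cenA_elim]
    have hren' : ∀ f : MvPolynomial (Fin n ⊕ Fin n) ℂ,
        eval (Sum.elim (cenA_sn x 0) y') (rename (Sum.map Fin.castSucc Fin.castSucc) f) =
          eval (Sum.elim x fun i => y' i.castSucc) f := by
      intro f
      rw [hy', eval_rename, cenA_elim, ← hy']
    have hlast : y' (Fin.last n) = eval (Sum.elim x fun i => y' i.castSucc) P := by
      have h1 := hV (X (Sum.inr (Fin.last n)) -
        rename (Sum.map Fin.castSucc Fin.castSucc) P) (by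
          rw [map_sub, aeval_X, hren, Sum.elim_inr, hυ', cenA_la, sub_self])
      rw [map_sub, eval_X, hren', Sum.elim_inr, sub_eq_zero] at h1
      exact h1
    rw [cenA_norm] at hb
    refine ⟨fun i => y' i.castSucc, ?_, fun i => hy0 _, ?_, fun i => ?_, ?_⟩
    · intro f hf
      rw [← hren']
      exact hV _ (by rw [hren]; exact hf)
    · rw [← hlast]
      exact hy0 _
    · rw [cenA_eval_sub]
      exact hb i.castSucc
    · rw [cenA_eval_sub, ← hlast]
      exact (hb (Fin.last n)).2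

end Pool.Agent.Lib.MP_209724_lc.GE
end

section

namespace Pool.Agent.Lib.MP_209724_lc.GD

open MvPolynomial Metric Set
open GC (prj)

variable {n d : ℕ}

/-- A nonzero element of a domain which is algebraic over `ℂ[ζ]` divides a nonzero element of `ℂ[ζ]`. -/
private theorem nonC_beta {d : ℕ} {L : Type} [Field L] [Algebra ℂ L] (ζ : Fin d → L)
    (B : Subalgebra ℂ L) (hζB : ∀ j, ζ j ∈ B)
    (halg : ∀ y ∈ B, IsAlgebraic (Algebra.adjoin ℂ (Set.range ζ)) y) (b : B) (hb : b ≠ 0) :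
    ∃ β : MvPolynomial (Fin d) ℂ, β ≠ 0 ∧ b ∣ aeval (fun j => (⟨ζ j, hζB j⟩ : B)) β := by
  set R := Algebra.adjoin ℂ (Set.range ζ) with hR
  have hRB : R ≤ B := by
    apply Algebra.adjoin_le
    rintro _ ⟨j, rfl⟩
    exact hζB j
  let algB : Algebra R B := (Subalgebra.inclusion hRB).toRingHom.toAlgebra
  have hbalg : IsAlgebraic R b := by
    refine (halg b b.2).of_ringHom_of_comp_eq (RingHom.id R) (B.val : B →+* L)
      Function.surjective_id Subtype.val_injective ?_
    ext r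
    rfl
  obtain ⟨r, hr, hdvd⟩ := hbalg.exists_nonzero_dvd (mem_nonZeroDivisors_of_ne_zero hb)
  have h1 : (r : L) ∈ (aeval ζ : MvPolynomial (Fin d) ℂ →ₐ[ℂ] L).range := by
    rw [← Algebra.adjoin_range_eq_range_aeval]
    exact r.2
  obtain ⟨β', hβ'⟩ := h1
  have h2 : aeval (fun j => (⟨ζ j, hζB j⟩ : B)) β' = algebraMap R B r := by
    apply Subtype.val_injective
    have h3 := MvPolynomial.comp_aeval_apply (fun j => (⟨ζ j, hζB j⟩ : B)) B.val β'
    simp only [Subalgebra.coe_val] at h3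
    exact h3.trans hβ'
  refine ⟨β', ?_, by rw [h2]; exact hdvd⟩
  intro h0
  rw [h0, map_zero] at h2
  apply hr
  apply Subalgebra.inclusion_injective hRB
  rw [map_zero]
  exact h2.symm

/-- **Polynomials outside of `q` do not vanish on charts.**

Proof. Let `ζ j = ∑ i, algebraMap ℂ L (Z j i) * ξ i`. `G(ξ) ≠ 0` is algebraic over
`Algebra.adjoin ℂ (range ζ)` and an element of the domain `Algebra.adjoin ℂ (range ξ)`, so it divides a
nonzero element `N(ζ)` of the former (as in the proof of `GP.coeff_bounds`, `GP/Low.lean`; also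
`GS/Sheet.lean`): `N(ζ) = G(ξ) a(ξ)` with `N : MvPolynomial (Fin d) ℂ` nonzero and
`a : MvPolynomial (Fin n) ℂ`. So `aeval (fun j => ∑ i, C (Z j i) * X i) N - G * a ∈ q`, and by `hHq`
`eval t N = eval (prj Z (H t)) N = eval (H t) G * eval (H t) a` for `t` in the ball. The nonzero
polynomial `N` does not vanish on the whole ball (`MvPolynomial.funext_set` on products of infinite sets or
the ball contains a product of discs). -/
theorem exists_nonzero (q : Ideal (MvPolynomial (Fin n) ℂ)) {L : Type} [Field L] [Algebra ℂ L]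
    (ξ : Fin n → L) (hξ : ∀ c, c ∈ q ↔ aeval ξ c = 0) (Z : Fin d → Fin n → ℂ)
    (hZ : AlgebraicIndependent ℂ fun j => ∑ i, algebraMap ℂ L (Z j i) * ξ i)
    (halg : ∀ i, IsAlgebraic (Algebra.adjoin ℂ (Set.range fun j =>
      ∑ i, algebraMap ℂ L (Z j i) * ξ i)) (ξ i))
    (H : (Fin d → ℂ) → Fin n → ℂ) {t₀ : Fin d → ℂ} {ρ : ℝ} (hρ : 0 < ρ)
    (hHq : ∀ t ∈ ball t₀ ρ, ∀ f ∈ q, eval (H t) f = 0)
    (hZH : ∀ t ∈ ball t₀ ρ, prj Z (H t) = t) (G : MvPolynomial (Fin n) ℂ) (hG : G ∉ q) :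
    ∃ t ∈ ball t₀ ρ, eval (H t) G ≠ 0 := by
  classical
  have hc : aeval ξ G ≠ 0 := fun h0 => hG ((hξ G).2 h0)
  set ζ : Fin d → L := fun j => ∑ i, algebraMap ℂ L (Z j i) * ξ i with hζ
  have hξA : ∀ i, ξ i ∈ Algebra.adjoin ℂ (Set.range ξ) := fun i =>
    Algebra.subset_adjoin ⟨i, rfl⟩
  have hζA : ∀ j, ζ j ∈ Algebra.adjoin ℂ (Set.range ξ) := by
    intro j
    exact Subalgebra.sum_mem _ fun i _ => Subalgebra.mul_mem _ (Subalgebra.algebraMap_mem _ _) (hξA i)
  have halgA : ∀ y ∈ Algebra.adjoin ℂ (Set.range ξ),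
      IsAlgebraic (Algebra.adjoin ℂ (Set.range ζ)) y := by
    intro y hy
    induction hy using Algebra.adjoin_induction with
    | mem y hy => obtain ⟨i, rfl⟩ := hy; exact halg i
    | algebraMap c =>
      have : algebraMap ℂ L c = algebraMap (Algebra.adjoin ℂ (Set.range ζ)) L
          (algebraMap ℂ _ c) := rfl
      rw [this]
      exact isAlgebraic_algebraMap _
    | add a b _ _ ha hb => exact ha.add hb
    | mul a b _ _ ha hb => exact ha.mul hb
  have hcA : aeval ξ G ∈ Algebra.adjoin ℂ (Set.range ξ) := by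
    rw [Algebra.adjoin_range_eq_range_aeval]
    exact ⟨G, rfl⟩
  obtain ⟨N, hN0, r, hr⟩ := nonC_beta ζ (Algebra.adjoin ℂ (Set.range ξ)) hζA halgA
    ⟨aeval ξ G, hcA⟩ (by
      intro h0
      exact hc (congrArg Subtype.val h0))
  obtain ⟨a, ha⟩ : ∃ a : MvPolynomial (Fin n) ℂ, aeval ξ a = (r : L) := by
    have h1 : (r : L) ∈ (aeval ξ : MvPolynomial (Fin n) ℂ →ₐ[ℂ] L).range := by
      rw [← Algebra.adjoin_range_eq_range_aeval]
      exact r.2
    obtain ⟨a, ha⟩ := h1
    exact ⟨a, ha⟩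
  have hNζ : aeval ζ N = aeval ξ G * aeval ξ a := by
    have h3 := MvPolynomial.comp_aeval_apply
      (fun j => (⟨ζ j, hζA j⟩ : Algebra.adjoin ℂ (Set.range ξ)))
      (Algebra.adjoin ℂ (Set.range ξ)).val N
    simp only [Subalgebra.coe_val] at h3
    rw [ha]
    rw [← h3, hr]
    rfl
  have hmem : aeval (fun j => ∑ i, C (Z j i) * X i) N - G * a ∈ q := by
    rw [hξ, map_sub, map_mul, sub_eq_zero, ← hNζ]
    have h4 := MvPolynomial.comp_aeval_apply (fun j => ∑ i, C (Z j i) * X i)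
      (aeval ξ : MvPolynomial (Fin n) ℂ →ₐ[ℂ] L) N
    rw [h4]
    congr 1
    congr 1
    funext j
    rw [map_sum]
    refine Finset.sum_congr rfl fun i _ => ?_
    rw [map_mul, aeval_C, aeval_X]
  by_contra hcon
  push Not at hcon
  have hNt : ∀ t ∈ ball t₀ ρ, eval t N = 0 := by
    intro t ht
    have h1 := hHq t ht _ hmem
    rw [map_sub, map_mul, hcon t ht, zero_mul, sub_zero] at h1
    have h5 := MvPolynomial.comp_aeval_apply (fun j => ∑ i, C (Z j i) * X i)
      (aeval (H t) : MvPolynomial (Fin n) ℂ →ₐ[ℂ] ℂ) N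
    rw [MvPolynomial.aeval_eq_eval] at h5
    rw [h5] at h1
    have h6 : (fun j => (eval (H t)) (∑ i, C (Z j i) * X i : MvPolynomial (Fin n) ℂ)) = t := by
      have h7 : (fun j => (eval (H t)) (∑ i, C (Z j i) * X i : MvPolynomial (Fin n) ℂ)) =
          prj Z (H t) := by
        funext j
        unfold prj
        rw [map_sum]
        refine Finset.sum_congr rfl fun i _ => ?_
        rw [map_mul, eval_C, eval_X]
      rw [h7, hZH t ht]
    rw [h6, MvPolynomial.aeval_eq_eval] at h1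
    exact h1
  apply hN0
  refine MvPolynomial.funext_set (fun i => ball (t₀ i) ρ) (fun i => ?_) ?_
  · exact infinite_of_mem_nhds (t₀ i) (ball_mem_nhds _ hρ)
  · intro x hx
    rw [map_zero]
    refine hNt x ?_
    rw [mem_ball, dist_pi_lt_iff hρ]
    intro i
    exact hx i (Set.mem_univ i)

/-- A nonzero integral vector is the first of `d ≤ n` linearly independent ones.

Proof. Over `ℚ`: extend `m` by unit vectors to a basis of `ℚ^n` (Steinitz;
`exists_linearIndependent_extension` between `{m}` and `{m} ∪ unit vectors`, or: if `m i₀ ≠ 0`, then `m` and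
the unit vectors `e_i`, `i ≠ i₀`, are linearly independent) and keep `d` of them, `m` first. -/
theorem exists_extend (hd : 0 < d) (hdn : d ≤ n) (m : Fin n → ℤ) (hm : m ≠ 0) :
    ∃ m' : Fin d → Fin n → ℤ, LinearIndependent ℤ m' ∧ m' ⟨0, hd⟩ = m := by
  classical
  obtain ⟨i₀, hi₀⟩ : ∃ i, m i ≠ 0 := by
    by_contra hcon
    push Not at hcon
    exact hm (funext hcon)
  have hn : 0 < n := lt_of_lt_of_le hd hdn
  set e : Fin d → Fin n := fun j => Equiv.swap (⟨0, hn⟩ : Fin n) i₀ (Fin.castLE hdn j) with he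
  have hinj : Function.Injective e := by
    intro a b hab
    exact Fin.castLE_injective hdn ((Equiv.swap (⟨0, hn⟩ : Fin n) i₀).injective hab)
  have he0 : e ⟨0, hd⟩ = i₀ := Equiv.swap_apply_left _ _
  refine ⟨fun j => if j = ⟨0, hd⟩ then m else Pi.single (e j) 1, ?_, if_pos rfl⟩
  rw [Fintype.linearIndependent_iff]
  intro g hg
  have key : ∀ i, ∑ l, g l * (if l = ⟨0, hd⟩ then m else Pi.single (e l) 1 : Fin n → ℤ) i = 0 := by
    intro i
    have h1 := congrFun hg i
    rw [Finset.sum_apply] at h1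
    refine Eq.trans (Finset.sum_congr rfl fun l _ => ?_) h1
    rw [Pi.smul_apply, smul_eq_mul]
  have h0 : g ⟨0, hd⟩ = 0 := by
    have h1 := key i₀
    rw [Finset.sum_eq_single (⟨0, hd⟩ : Fin d)] at h1
    · rw [if_pos rfl] at h1
      exact (mul_eq_zero.1 h1).resolve_right hi₀
    · intro l _ hl
      rw [if_neg hl, Pi.single_eq_of_ne, mul_zero]
      intro h2
      exact hl (hinj (h2.symm.trans he0.symm))
    · intro h2
      exact absurd (Finset.mem_univ _) h2
  intro j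
  by_cases hj : j = ⟨0, hd⟩
  · rw [hj]
    exact h0
  · have h1 := key (e j)
    rw [Finset.sum_eq_single j] at h1
    · rw [if_neg hj, Pi.single_eq_same, mul_one] at h1
      exact h1
    · intro l _ hl
      by_cases hl0 : l = ⟨0, hd⟩
      · rw [hl0, h0, zero_mul]
      · rw [if_neg hl0, Pi.single_eq_of_ne, mul_zero]
        intro h2
        exact hl (hinj h2.symm)
    · intro h2
      exact absurd (Finset.mem_univ _) h2

/-- **Integral forms move on `Z`.**

Proof. Let `m'` be as in `exists_extend`, `G ∉ q` from `GP.exists_tangent_poly` for the complex matrix of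
`m'` (with `hgp m'`), and `t` in the ball with `G(H t) ≠ 0` (`exists_nonzero`). The linear map
`b ↦ (∑ i, m'_j i * fderiv ℂ H t b i)_j` from `ℂ^d` to `ℂ^d` is injective: if it vanishes at `b`, then
`fderiv ℂ H t b`, a tangent vector (`GS.chart_tangent`), is `0`, so `b = 0`
(`GS.chart_injective`). So it is surjective, and its component number `0` does not vanish
identically. -/
theorem exists_move (hd : 0 < d) (hdn : d ≤ n) (q : Ideal (MvPolynomial (Fin n) ℂ)) [q.IsPrime]
    (hqd : Algebra.trdeg ℂ (MvPolynomial (Fin n) ℂ ⧸ q) = d)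
    (hgp : ∀ m : Fin d → Fin n → ℤ, LinearIndependent ℤ m →
      AlgebraicIndependent ℂ fun j => Ideal.Quotient.mk q (∑ k, C (m j k : ℂ) * X k))
    {L : Type} [Field L] [Algebra ℂ L]
    (ξ : Fin n → L) (hξ : ∀ c, c ∈ q ↔ aeval ξ c = 0) (Z : Fin d → Fin n → ℂ)
    (hZ : AlgebraicIndependent ℂ fun j => ∑ i, algebraMap ℂ L (Z j i) * ξ i)
    (halg : ∀ i, IsAlgebraic (Algebra.adjoin ℂ (Set.range fun j =>
      ∑ i, algebraMap ℂ L (Z j i) * ξ i)) (ξ i))
    (H : (Fin d → ℂ) → Fin n → ℂ) {t₀ : Fin d → ℂ} {ρ : ℝ} (hρ : 0 < ρ)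
    (hH : DifferentiableOn ℂ H (ball t₀ ρ))
    (hHq : ∀ t ∈ ball t₀ ρ, ∀ f ∈ q, eval (H t) f = 0)
    (hZH : ∀ t ∈ ball t₀ ρ, prj Z (H t) = t) (m : Fin n → ℤ) (hm : m ≠ 0) :
    ∃ t ∈ ball t₀ ρ, ∃ b : Fin d → ℂ, ∑ i, (m i : ℂ) * fderiv ℂ H t b i ≠ 0 := by
  classical
  obtain ⟨m', hm', hm0⟩ := exists_extend hd hdn m hm
  obtain ⟨G, hG, hGt⟩ := GP.exists_tangent_poly q hqd (fun j k => (m' j k : ℂ)) (hgp m' hm')
  obtain ⟨t, ht, htG⟩ := exists_nonzero q ξ hξ Z hZ halg H hρ hHq hZH G hG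
  refine ⟨t, ht, ?_⟩
  set T : (Fin d → ℂ) →ₗ[ℂ] (Fin d → ℂ) :=
    { toFun := fun b j => ∑ i, (m' j i : ℂ) * fderiv ℂ H t b i
      map_add' := by
        intro a b
        funext j
        simp only [map_add, Pi.add_apply, mul_add, Finset.sum_add_distrib]
      map_smul' := by
        intro c b
        funext j
        simp only [map_smul, Pi.smul_apply, smul_eq_mul, RingHom.id_apply, Finset.mul_sum]
        refine Finset.sum_congr rfl fun i _ => ?_
        ring } with hT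
  have hTinj : Function.Injective T := by
    rw [injective_iff_map_eq_zero]
    intro b hb
    refine GS.chart_injective Z H hH hZH ht b ?_
    refine hGt (H t) (hHq t ht) htG (fderiv ℂ H t b) ?_ ?_
    · intro f hf
      exact GS.chart_tangent q H hH hHq ht b hf
    · intro j
      exact congrFun hb j
  obtain ⟨b, hb⟩ := (LinearMap.injective_iff_surjective.1 hTinj) (Pi.single ⟨0, hd⟩ 1)
  refine ⟨b, ?_⟩
  have h1 := congrFun hb ⟨0, hd⟩
  rw [Pi.single_eq_same] at h1
  have h2 : T b ⟨0, hd⟩ = ∑ i, (m' ⟨0, hd⟩ i : ℂ) * fderiv ℂ H t b i := rfl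
  rw [h2, hm0] at h1
  rw [h1]
  exact one_ne_zero

end Pool.Agent.Lib.MP_209724_lc.GD
end

section

namespace Pool.Agent.Lib.MP_209724_lc.GE

open MvPolynomial Filter Topology Metric Set
open GC (cone)

variable {n : ℕ}

/-- **The components of the asymptotic cone are cones.** -/
theorem smul_mem (p q : Ideal (MvPolynomial (Fin n) ℂ)) [q.IsPrime]
    (hq1 : ∀ z : Fin n → ℂ, (∀ f ∈ q, eval z f = 0) → z ∈ cone p)
    (hq2 : ∃ G ∉ q, ∀ z ∈ cone p, eval z G ≠ 0 → ∀ f ∈ q, eval z f = 0)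
    {z : Fin n → ℂ} (hz : ∀ f ∈ q, eval z f = 0) (s : ℂ) : ∀ f ∈ q, eval (s • z) f = 0 := by
  obtain ⟨G, hG, hq2⟩ := hq2
  exact GP.scale_complex p q hq1 G hG hq2 z hz s

theorem homog_eval {e : ℕ} {G : MvPolynomial (Fin n) ℂ} (hG : G.IsHomogeneous e) (s : ℂ)
    (z : Fin n → ℂ) : eval (fun i => s * z i) G = s ^ e * eval z G := by
  rw [MvPolynomial.eval_eq, MvPolynomial.eval_eq, Finset.mul_sum]
  refine Finset.sum_congr rfl fun m hm => ?_
  have h1 : m.degree = e := by
    have := hG (mem_support_iff.1 hm)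
    rw [← this, Finsupp.degree_eq_weight_one]
    rfl
  simp only [mul_pow, Finset.prod_mul_distrib]
  rw [Finset.prod_pow_eq_pow_sum]
  have h2 : ∑ i ∈ m.support, m i = e := by
    rw [← h1]
    rfl
  rw [h2]
  ring

/-- **A homogeneous component outside of `q`.** Proof. `G` is the sum of its homogeneous components, so one
of them, `G'` of degree `e`, is not in `q`. If `G'(z) ≠ 0` then `s ↦ G(s z) = ∑_j s^j G_j(z)` is a nonzero
polynomial in `s`, so it is `≠ 0` at some real `s > 0`. -/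
theorem exists_comp {q : Ideal (MvPolynomial (Fin n) ℂ)} {G : MvPolynomial (Fin n) ℂ} (hG : G ∉ q) :
    ∃ (e : ℕ) (G' : MvPolynomial (Fin n) ℂ), G'.IsHomogeneous e ∧ G' ∉ q ∧
      ∀ z : Fin n → ℂ, eval z G' ≠ 0 → ∃ s : ℝ, 0 < s ∧ eval (s • z) G ≠ 0 := by
  classical
  obtain ⟨e, he⟩ : ∃ e, homogeneousComponent e G ∉ q := by
    by_contra hcon
    push Not at hcon
    apply hG
    rw [← sum_homogeneousComponent G]
    exact sum_mem fun i _ => hcon i
  refine ⟨e, homogeneousComponent e G, homogeneousComponent_isHomogeneous _ _, he, fun z hz => ?_⟩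
  -- the polynomial `s ↦ G(s z)`
  obtain ⟨Q, hQ⟩ : ∃ Q : Polynomial ℂ, Q = ∑ j ∈ Finset.range (G.totalDegree + 1),
      Polynomial.C (eval z (homogeneousComponent j G)) * Polynomial.X ^ j := ⟨_, rfl⟩
  have hQe : ∀ s : ℂ, Q.eval s = eval (fun i => s * z i) G := by
    intro s
    conv_rhs => rw [← sum_homogeneousComponent G, map_sum]
    rw [hQ, Polynomial.eval_finsetSum]
    refine Finset.sum_congr rfl fun j _ => ?_
    rw [homog_eval (homogeneousComponent_isHomogeneous j G)]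
    simp
    ring
  have hQ0 : Q ≠ 0 := by
    intro h0
    have h1 := congrArg (fun Q => Polynomial.coeff Q e) h0
    simp only [hQ, Polynomial.finsetSum_coeff, Polynomial.coeff_C_mul_X_pow,
      Polynomial.coeff_zero] at h1
    by_cases hle : e < G.totalDegree + 1
    · rw [Finset.sum_eq_single e] at h1
      · simp at h1
        exact hz h1
      · intro j _ hj
        rw [if_neg (Ne.symm hj)]
      · intro h
        exact absurd (Finset.mem_range.2 hle) h
    · apply hz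
      rw [homogeneousComponent_eq_zero _ _ (by omega), map_zero]
  by_contra hcon
  push Not at hcon
  apply hQ0
  refine Polynomial.eq_zero_of_infinite_isRoot _ ?_
  have h4 : ((fun a : ℝ => (a : ℂ)) '' Set.Ioi (0:ℝ)).Infinite :=
    (Set.Ioi_infinite (0:ℝ)).image Complex.ofReal_injective.injOn
  refine h4.mono ?_
  rintro _ ⟨a, ha, rfl⟩
  show Polynomial.eval (a : ℂ) _ = 0
  rw [hQe]
  have h5 : (fun i => (a : ℂ) * z i) = a • z := by
    funext i
    simp
  rw [h5]
  exact hcon a ha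

/-- **A homogeneous polynomial which vanishes on the other components.** Proof. `exists_comp` for the
polynomial `G` of `hq2`: if `z ∈ cone p`, `G'(z) ≠ 0` then `G(s z) ≠ 0` for some `s > 0`, and `s z ∈ cone p`, so
`s z ∈ V(q)`; by `smul_mem` (with `s⁻¹`) `z ∈ V(q)`. -/
theorem exists_homog (p q : Ideal (MvPolynomial (Fin n) ℂ)) [q.IsPrime]
    (hq1 : ∀ z : Fin n → ℂ, (∀ f ∈ q, eval z f = 0) → z ∈ cone p)
    (hq2 : ∃ G ∉ q, ∀ z ∈ cone p, eval z G ≠ 0 → ∀ f ∈ q, eval z f = 0) :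
    ∃ (e : ℕ) (G : MvPolynomial (Fin n) ℂ), G.IsHomogeneous e ∧ G ∉ q ∧
      ∀ z ∈ cone p, eval z G ≠ 0 → ∀ f ∈ q, eval z f = 0 := by
  obtain ⟨G, hG, hG2⟩ := id hq2
  obtain ⟨e, G', hG'h, hG', hG'G⟩ := exists_comp hG
  refine ⟨e, G', hG'h, hG', fun z hz hzG => ?_⟩
  obtain ⟨s, hs, hsG⟩ := hG'G z hzG
  have h1 : (s • z) ∈ cone p := by
    obtain ⟨r, x, hr, hx, hlim⟩ := hz
    refine ⟨fun ν => r ν / s, x, hr.atTop_div_const hs, hx, ?_⟩
    have h1 : (fun ν => (r ν / s)⁻¹ • x ν) = fun ν => s • ((r ν)⁻¹ • x ν) := by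
      funext ν
      rw [smul_smul, inv_div, div_eq_mul_inv]
    rw [h1]
    exact hlim.const_smul s
  have h2 := hG2 _ h1 hsG
  have h3 := smul_mem p q hq1 hq2 h2 ((s : ℂ)⁻¹)
  intro f hf
  have h4 := h3 f hf
  have h5 : (s : ℂ) ≠ 0 := by exact_mod_cast hs.ne'
  have h6 : ((s : ℂ)⁻¹ • s • z : Fin n → ℂ) = z := by
    funext i
    simp only [Pi.smul_apply, smul_eq_mul, Complex.real_smul]
    field_simp
  rwa [h6] at h4

end Pool.Agent.Lib.MP_209724_lc.GE
end

section

/-!
# Proper position implies general position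
-/

namespace Pool.Agent.Lib.MP_209724_lc.GF

open MvPolynomial Filter Topology Metric Set
open GC (cone)

variable {n d : ℕ}

/-- Evaluation at a multiple of a point. -/
private theorem pp_eval_smul (z : Fin n → ℂ) (f : MvPolynomial (Fin n) ℂ) (c : ℂ) :
    eval (fun i => c * z i) f =
      ∑ k ∈ Finset.range (f.totalDegree + 1), eval z (homogeneousComponent k f) * c ^ k := by
  conv_lhs => rw [← sum_homogeneousComponent f]
  rw [map_sum]
  refine Finset.sum_congr rfl fun k _ => ?_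
  rw [homogeneousComponent_apply, map_sum, map_sum, Finset.sum_mul]
  refine Finset.sum_congr rfl fun μ hμ => ?_
  have hμk : μ.degree = k := (Finset.mem_filter.1 hμ).2
  rw [eval_monomial, eval_monomial, Finsupp.prod, Finsupp.prod]
  simp only [mul_pow]
  rw [Finset.prod_mul_distrib, Finset.prod_pow_eq_pow_sum, ← hμk, Finsupp.degree_apply]
  ring

/-- `q` is homogeneous. -/
private theorem pp_homog (p q : Ideal (MvPolynomial (Fin n) ℂ)) [q.IsPrime]
    (hq1 : ∀ z : Fin n → ℂ, (∀ f ∈ q, eval z f = 0) → z ∈ cone p)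
    (hq2 : ∃ G ∉ q, ∀ z ∈ cone p, eval z G ≠ 0 → ∀ f ∈ q, eval z f = 0)
    (f : MvPolynomial (Fin n) ℂ) (hf : f ∈ q) (k : ℕ) : homogeneousComponent k f ∈ q := by
  obtain ⟨G, hG, hG2⟩ := hq2
  by_cases hk : k < f.totalDegree + 1
  swap
  · rw [homogeneousComponent_eq_zero k f (by omega)]
    exact q.zero_mem
  refine GS.mem_of_forall_zero q _ fun z hz => ?_
  set Q : Polynomial ℂ := ∑ k ∈ Finset.range (f.totalDegree + 1),
    Polynomial.monomial k (eval z (homogeneousComponent k f)) with hQ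
  have hQ0 : Q = 0 := by
    apply Polynomial.funext
    intro c
    rw [hQ, Polynomial.eval_finsetSum, Polynomial.eval_zero]
    simp only [Polynomial.eval_monomial]
    rw [← pp_eval_smul]
    exact GP.scale_complex p q hq1 G hG hG2 z hz c f hf
  have h1 : Q.coeff k = eval z (homogeneousComponent k f) := by
    rw [hQ, Polynomial.finsetSum_coeff]
    simp only [Polynomial.coeff_monomial]
    rw [Finset.sum_ite_eq', if_pos (Finset.mem_range.2 hk)]
  rw [← h1, hQ0, Polynomial.coeff_zero]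

/-- The homogeneous components of a multiple of a linear form. -/
private theorem pp_comp_mul (l g : MvPolynomial (Fin n) ℂ) (hl : l.IsHomogeneous 1) (e : ℕ) :
    homogeneousComponent (e + 1) (l * g) = l * homogeneousComponent e g := by
  conv_lhs => rw [← sum_homogeneousComponent g]
  rw [Finset.mul_sum, map_sum]
  have h1 : ∀ k, homogeneousComponent (e + 1) (l * homogeneousComponent k g) =
      if e = k then l * homogeneousComponent k g else 0 := by
    intro k
    have h2 : (l * homogeneousComponent k g).IsHomogeneous (1 + k) :=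
      hl.mul (homogeneousComponent_isHomogeneous k g)
    rw [homogeneousComponent_of_mem h2]
    by_cases hek : e = k
    · rw [if_pos hek, if_pos (by omega)]
    · rw [if_neg hek, if_neg (by omega)]
  rw [Finset.sum_congr rfl fun k _ => h1 k, Finset.sum_ite_eq]
  by_cases he : e ∈ Finset.range (g.totalDegree + 1)
  · rw [if_pos he]
  · rw [if_neg he, homogeneousComponent_eq_zero e g (by
      rw [Finset.mem_range] at he; omega), mul_zero]

/-- **Linear forms without common zero on a cone are algebraically independent on it.** `Z`, the zero set of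
`q`, is a component of dimension `d` of the asymptotic cone of the zero set of `p`, and `ℓ_1, …, ℓ_d` are
linear forms without a common zero `z ≠ 0` on `Z`. Then they are algebraically independent modulo `q`.

Proof. `Z` is a cone (`GP.scale_complex`, `GP/Imag.lean`) and closed. By compactness of `{z ∈ Z | ‖z‖ = 1}`
(if it is empty, `Z ⊆ {0}`, then all `X i ∈ q` (`GS.mem_of_forall_zero`), the quotient is `ℂ` and `d = 0`)
there is `c > 0` with `max_j |ℓ_j z| ≥ c` there, so (`*`) `c ‖z‖ ≤ ‖(ℓ_j z)_j‖` on `Z`. Suppose that the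
`ℓ_j` are algebraically dependent modulo `q`. Let `(L, ξ)` be the generic point (`GS.exists_generic_pt`),
`ζ_j = ℓ_j(ξ)`, and `J` a maximal subset of `Fin d` with `(ζ_j)_{j ∈ J}` algebraically independent; so
`|J| < d` and, since the transcendence degree is `d`, some `ξ_i` is transcendental over `ℂ(ζ_j, j ∈ J)`,
i.e. `(ζ_J, ξ_i)` is algebraically independent (see `exists_transc` in `GD/Tan.lean`, private; or
`AlgebraicIndependent`/matroid lemmas in Mathlib). By the extension of homomorphisms (for instance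
`GC/Hom.lean`, `MV.exists_sheets`, or Mathlib's lemma on specializations of finitely generated domains:
there is a nonzero polynomial `N` in `|J| + 1` variables such that every point with `N ≠ 0` is the
image `(ℓ_J z, z_i)` of a zero `z` of `q`) choose `a ∈ ℂ^J` such that `N(a, s) ≠ 0` for all but finitely
many `s` and such that for each `j ∉ J` the relation of `ζ_j` over `ℂ[ζ_J]` does not become trivial at
`a`; then for `s → ∞` there are `z_s ∈ Z` with `ℓ_J(z_s) = a`, `(z_s)_i = s`, and the numbers `ℓ_j(z_s)`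
are in a finite set independent of `s`. So `ℓ(z_s)` is bounded and `‖z_s‖ ≥ |s|`, contradicting (`*`).
(Another proof: by the Nullstellensatz `X_i ^ N ∈ q + (ℓ_1, …, ℓ_d)`, and by graded Nakayama
`ℂ[x]/q` is finite over `ℂ[ℓ_1, …, ℓ_d]`; here one needs that `q` is homogeneous, which follows from the
fact that `Z` is a cone.) -/
theorem algInd_of_proper (p q : Ideal (MvPolynomial (Fin n) ℂ)) [q.IsPrime]
    (hq : Algebra.trdeg ℂ (MvPolynomial (Fin n) ℂ ⧸ q) = d)
    (hq1 : ∀ z : Fin n → ℂ, (∀ f ∈ q, eval z f = 0) → z ∈ cone p)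
    (hq2 : ∃ G ∉ q, ∀ z ∈ cone p, eval z G ≠ 0 → ∀ f ∈ q, eval z f = 0)
    (ℓ : Fin d → Fin n → ℂ)
    (hℓ : ∀ z : Fin n → ℂ, (∀ f ∈ q, eval z f = 0) → (∀ j, ∑ i, ℓ j i * z i = 0) → z = 0) :
    AlgebraicIndependent ℂ fun j => Ideal.Quotient.mk q (∑ k, C (ℓ j k) * X k) := by
  classical
  set lf : Fin d → MvPolynomial (Fin n) ℂ := fun j => ∑ k, C (ℓ j k) * X k with hlf
  have hlh : ∀ j, (lf j).IsHomogeneous 1 := by
    intro j
    apply IsHomogeneous.sum
    intro k _
    exact isHomogeneous_C_mul_X _ _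
  -- the ideal generated by `q` and the linear forms
  set I : Ideal (MvPolynomial (Fin n) ℂ) := q ⊔ Ideal.span (Set.range lf) with hI
  have hrad : idealOfVars (Fin n) ℂ ≤ I.radical := by
    rw [Ideal.span_le]
    rintro _ ⟨i, rfl⟩
    show X i ∈ I.radical
    rw [← vanishingIdeal_zeroLocus_eq_radical (K := ℂ), mem_vanishingIdeal_iff]
    intro z hz
    have h1 : z = 0 := by
      apply hℓ z
      · intro f hf
        have := hz f (Ideal.mem_sup_left hf)
        rwa [aeval_eq_eval] at this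
      · intro j
        have := hz (lf j) (Ideal.mem_sup_right (Ideal.subset_span ⟨j, rfl⟩))
        rw [aeval_eq_eval] at this
        simpa [hlf] using this
    rw [h1]
    simp
  obtain ⟨N, hN⟩ := Ideal.exists_pow_le_of_le_radical_of_fg hrad (idealOfVars_fg (Fin n) ℂ)
  -- the module
  set A := MvPolynomial (Fin n) ℂ ⧸ q with hA
  set ζ : Fin d → A := fun j => Ideal.Quotient.mk q (lf j) with hζ
  set B := Algebra.adjoin ℂ (Set.range ζ) with hB
  set S : Set (Fin n →₀ ℕ) := {μ | μ.degree < N + 1} with hS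
  have hSfin : S.Finite := by
    have : S ⊆ ((Finset.range (N + 1)).biUnion (fun k => Finset.finsuppAntidiag (Finset.univ : Finset (Fin n)) k) :
        Finset (Fin n →₀ ℕ)) := by
      intro μ hμ
      simp only [Finset.coe_biUnion, Set.mem_iUnion, Finset.mem_coe, Finset.mem_range]
      refine ⟨μ.degree, hμ, ?_⟩
      rw [Finset.mem_finsuppAntidiag]
      refine ⟨?_, Finset.subset_univ _⟩
      rw [Finsupp.degree_eq_sum]
    exact (Finset.finite_toSet _).subset this
  set M : Submodule B A := Submodule.span B ((fun μ => Ideal.Quotient.mk q (monomial μ (1 : ℂ))) '' S)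
    with hM
  have hC : ∀ (c : ℂ) (x : A), x ∈ M → Ideal.Quotient.mk q (C c) * x ∈ M := by
    intro c x hx
    have h1 : Ideal.Quotient.mk q (C c) * x = (algebraMap ℂ B c) • x := rfl
    rw [h1]
    exact M.smul_mem _ hx
  have hmon : ∀ (μ : Fin n →₀ ℕ) (c : ℂ), Ideal.Quotient.mk q (monomial μ (1 : ℂ)) ∈ M →
      Ideal.Quotient.mk q (monomial μ c) ∈ M := by
    intro μ c h1
    have h2 : (monomial μ c : MvPolynomial (Fin n) ℂ) = C c * monomial μ 1 := by
      rw [C_mul_monomial, mul_one]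
    rw [h2, map_mul]
    exact hC c _ h1
  have hhom : ∀ e, ∀ g : MvPolynomial (Fin n) ℂ, g.IsHomogeneous e →
      Ideal.Quotient.mk q g ∈ M := by
    intro e
    induction e with
    | zero =>
      intro g hg
      rw [g.as_sum, map_sum]
      apply Submodule.sum_mem
      intro μ hμ
      apply hmon
      apply Submodule.subset_span
      refine ⟨μ, ?_, rfl⟩
      have h3 : μ.degree = 0 := by
        by_contra hne
        exact mem_support_iff.1 hμ (hg.coeff_eq_zero hne)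
      show μ.degree < N + 1
      omega
    | succ e ih =>
      intro g hg
      by_cases he : e + 1 < N + 1
      · rw [g.as_sum, map_sum]
        apply Submodule.sum_mem
        intro μ hμ
        apply hmon
        apply Submodule.subset_span
        refine ⟨μ, ?_, rfl⟩
        have h3 : μ.degree = e + 1 := by
          by_contra hne
          exact mem_support_iff.1 hμ (hg.coeff_eq_zero hne)
        show μ.degree < N + 1
        omega
      · have hgI : g ∈ I := by
          apply hN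
          rw [mem_pow_idealOfVars_iff]
          intro μ hμ
          have h3 : μ.degree = e + 1 := by
            by_contra hne
            exact mem_support_iff.1 hμ (hg.coeff_eq_zero hne)
          omega
        obtain ⟨h, hh, g', hg', hsum⟩ := Submodule.mem_sup.1 hgI
        obtain ⟨a, ha⟩ := Ideal.mem_span_range_iff_exists_fun.1 hg'
        have h4 : g = homogeneousComponent (e + 1) h +
            ∑ j, lf j * homogeneousComponent e (a j) := by
          have h5 := homogeneousComponent_eq_self hg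
          rw [← hsum, ← ha, map_add, map_sum] at h5
          rw [← hsum, ← ha]
          rw [← h5]
          congr 1
          refine Finset.sum_congr rfl fun j _ => ?_
          rw [mul_comm (a j), pp_comp_mul _ _ (hlh j)]
        rw [h4, map_add, map_sum]
        have h6 : Ideal.Quotient.mk q (homogeneousComponent (e + 1) h) = 0 :=
          Ideal.Quotient.eq_zero_iff_mem.2 (pp_homog p q hq1 hq2 h hh _)
        rw [h6, zero_add]
        apply Submodule.sum_mem
        intro j _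
        rw [map_mul]
        have h7 : ζ j ∈ B := Algebra.subset_adjoin ⟨j, rfl⟩
        have h8 : Ideal.Quotient.mk q (lf j) * Ideal.Quotient.mk q (homogeneousComponent e (a j)) =
            (⟨ζ j, h7⟩ : B) • Ideal.Quotient.mk q (homogeneousComponent e (a j)) := rfl
        rw [h8]
        exact M.smul_mem _ (ih _ (homogeneousComponent_isHomogeneous e (a j)))
  have hMtop : M = ⊤ := by
    rw [eq_top_iff]
    intro x _
    obtain ⟨g, rfl⟩ := Ideal.Quotient.mk_surjective x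
    rw [← sum_homogeneousComponent g, map_sum]
    exact Submodule.sum_mem _ fun k _ => hhom k _ (homogeneousComponent_isHomogeneous k g)
  have hfin : Module.Finite B A := by
    refine ⟨?_⟩
    rw [← hMtop]
    exact Submodule.fg_span (hSfin.image _)
  have hint : Algebra.IsIntegral B A := Algebra.IsIntegral.of_finite B A
  have halg : Algebra.IsAlgebraic B A := hint.isAlgebraic
  have hbase : IsTranscendenceBasis ℂ ζ := by
    apply Algebra.IsAlgebraic.isTranscendenceBasis_of_le_trdeg_of_finite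
    rw [hq]
    simp
  exact hbase.1

end Pool.Agent.Lib.MP_209724_lc.GF
end

section

namespace Pool.Agent.Lib.MP_209724_lc.GD

open MvPolynomial

variable {n d k : ℕ}

/-- **Real vectors transversal to finitely many proper subspaces.**

Proof. For each `j` choose a linear form `λ_j ≠ 0` on `ℂⁿ` vanishing on `U j`
(`Submodule.exists_le_ker_of_lt_top` or `Submodule.exists_dual_map_eq_bot_of_lt_top`). The real subspace
`{b : Fin n → ℝ | λ_j (b : ℂⁿ) = 0}` is proper (the real vectors span `ℂⁿ`), and a real vector space is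
not a finite union of proper subspaces (`Submodule.iUnion_ne_univ_of_forall_ne_top` or similar;
`Subspace.biUnion_ne_univ_of_top_notMem`). -/
theorem exists_real_notMem {J : Type} [Fintype J] (U : J → Submodule ℂ (Fin n → ℂ))
    (hU : ∀ j, U j ≠ ⊤) : ∃ b : Fin n → ℝ, ∀ j, (fun i => (b i : ℂ)) ∉ U j := by
  classical
  by_contra hcon
  push Not at hcon
  let g : (Fin n → ℝ) →ₗ[ℝ] (Fin n → ℂ) :=
    { toFun := fun b i => (b i : ℂ)
      map_add' := fun x y => by
        funext i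
        simp
      map_smul' := fun c x => by
        funext i
        simp }
  have hcov : ⋃ j, ((((U j).restrictScalars ℝ).comap g : Submodule ℝ (Fin n → ℝ)) :
      Set (Fin n → ℝ)) = Set.univ := by
    rw [Set.eq_univ_iff_forall]
    intro b
    obtain ⟨j, hj⟩ := hcon b
    exact Set.mem_iUnion.mpr ⟨j, hj⟩
  obtain ⟨j, hj⟩ := Subspace.exists_eq_top_of_iUnion_eq_univ hcov
  apply hU j
  rw [eq_top_iff]
  rintro x -
  have hmem : ∀ i, (Pi.single i 1 : Fin n → ℂ) ∈ U j := by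
    intro i
    have h1 : (Pi.single i 1 : Fin n → ℝ) ∈ ((U j).restrictScalars ℝ).comap g := by
      rw [hj]
      exact Submodule.mem_top
    have h2 : g (Pi.single i 1 : Fin n → ℝ) = (Pi.single i 1 : Fin n → ℂ) := by
      funext l
      show (((Pi.single i 1 : Fin n → ℝ) l : ℝ) : ℂ) = (Pi.single i 1 : Fin n → ℂ) l
      by_cases h : l = i
      · subst h
        simp
      · simp [h]
    rw [Submodule.mem_comap, h2] at h1
    exact h1
  have h3 : x = ∑ i, x i • (Pi.single i 1 : Fin n → ℂ) := by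
    ext l
    rw [Finset.sum_apply, Finset.sum_eq_single l]
    · simp
    · intro i _ hil
      simp [hil.symm]
    · intro h
      exact absurd (Finset.mem_univ _) h
  rw [h3]
  exact Submodule.sum_mem _ fun i _ => Submodule.smul_mem _ _ (hmem i)

/-- The dimension count. -/
private theorem sup_ne_top_aux (m : Fin (d + 1) → Fin n → ℤ) (hm : LinearIndependent ℤ m)
    (T N : Submodule ℂ (Fin n → ℂ))
    (hT : ∀ v ∈ T, (∀ j : Fin d, ∑ i, (m j.castSucc i : ℂ) * v i = 0) → v = 0)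
    (hN : ∀ v ∈ N, ∀ j, ∑ i, (m j i : ℂ) * v i = 0) : T ⊔ N ≠ ⊤ := by
  classical
  intro htop
  have hmC : LinearIndependent ℂ (fun (j : Fin (d + 1)) (i : Fin n) => (m j i : ℂ)) := by
    have h1 := (linearIndependent_algebraMap_comp_iff (R := ℤ) (S := ℂ) (v := m)).mpr hm
    exact h1
  obtain ⟨M, hM⟩ : ∃ M : Matrix (Fin (d + 1)) (Fin n) ℂ, M = fun j i => (m j i : ℂ) := ⟨_, rfl⟩
  have hrow : LinearIndependent ℂ M.row := by
    rw [hM]
    exact hmC
  have hrank : M.rank = d + 1 := by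
    rw [hrow.rank_matrix, Fintype.card_fin]
  -- the image of `T`
  have hmap : T.map M.mulVecLin = LinearMap.range M.mulVecLin := by
    apply le_antisymm
    · rintro _ ⟨v, _, rfl⟩
      exact ⟨v, rfl⟩
    · rintro _ ⟨v, rfl⟩
      have hv : v ∈ T ⊔ N := by
        rw [htop]
        exact Submodule.mem_top
      obtain ⟨t, ht, u, hu, rfl⟩ := Submodule.mem_sup.mp hv
      refine ⟨t, ht, ?_⟩
      rw [map_add]
      have h0 : M.mulVecLin u = 0 := by
        funext j
        rw [Matrix.mulVecLin_apply, hM]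
        exact hN u hu j
      rw [h0, add_zero]
  have hge : d + 1 ≤ Module.finrank ℂ T := by
    rw [← hrank, Matrix.rank, ← hmap]
    exact Submodule.finrank_map_le _ _
  -- the first `d` rows are injective on `T`
  obtain ⟨M', hM'⟩ : ∃ M' : Matrix (Fin d) (Fin n) ℂ, M' = fun j i => (m j.castSucc i : ℂ) :=
    ⟨_, rfl⟩
  have hinj : Function.Injective (M'.mulVecLin.domRestrict T) := by
    rw [← LinearMap.ker_eq_bot, LinearMap.ker_eq_bot']
    intro v hv
    apply Subtype.ext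
    apply hT v.1 v.2
    intro j
    have h1 := congrFun hv j
    rw [LinearMap.domRestrict_apply, Matrix.mulVecLin_apply, hM'] at h1
    exact h1
  have hle := LinearMap.finrank_le_finrank_of_injective hinj
  rw [Module.finrank_fin_fun] at hle
  omega

/-- **The selections for `k + 1` coordinates when `d + (k + 1) = n`**: at the generic points `z` of `Z`
there is a real vector `b` such that they are nondegenerate on `T_z ⊕ ℂ b`.

Proof. For each selection `s = (α, β)` the vectors `a I = α I - β I` are nonzero and supported on `I`, so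
`GP.exists_rows` (with `d + 1` and `k`, `(d + 1) + k = n`) gives `d + 1` linearly independent ones among
them. The first `d` of them are algebraically independent on `Z` (`hgp`) and
`GP.exists_tangent_poly` gives `G_s ∉ q`; `G` is the product of the `G_s` over the finitely many
selections (the finite type `∀ I, {p : S I × S I // p.1 ≠ p.2}`), as in `GP.exists_sel_poly`
(`GP/Tan2.lean`). Let `z` be a zero of `q` with `G(z) ≠ 0` and
`T = {v | ∀ f ∈ q, ∑ k, v k * ∂_k f(z) = 0}` (a submodule). For each `s` let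
`N_s = {v | ∀ I, ∑ i (α I i - β I i) v i = 0}`. Then `T ∩ N_s = 0` (first `d` rows), so
`v ↦ (row_j v)_{j < d}` is injective on `T` and `dim T ≤ d`; and `dim N_s ≤ n - (d + 1)` because the
`d + 1` rows, linearly independent over `ℤ`, are linearly independent over `ℂ`. So
`dim (T + N_s) ≤ n - 1` and `T + N_s ≠ ⊤`. By `exists_real_notMem` there is a real `b` outside of all
`T + N_s`. If `v ∈ T`, `v + s b ∈ N_s`, then `s = 0` (otherwise `b ∈ T + N_s`) and `v ∈ T ∩ N_s = 0`. -/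
theorem exists_sel_poly2 (hdk : d + (k + 1) = n) (q : Ideal (MvPolynomial (Fin n) ℂ)) [q.IsPrime]
    (hqd : Algebra.trdeg ℂ (MvPolynomial (Fin n) ℂ ⧸ q) = d)
    (hgp : ∀ m : Fin d → Fin n → ℤ, LinearIndependent ℤ m →
      AlgebraicIndependent ℂ fun j => Ideal.Quotient.mk q (∑ k, C (m j k : ℂ) * X k))
    (S : {I : Finset (Fin n) // I.card = k + 1} → Finset (Fin n → ℕ))
    (hS : ∀ I, ∀ α ∈ S I, ∀ i, i ∉ I.1 → α i = 0) :
    ∃ G ∉ q, ∀ z : Fin n → ℂ, (∀ f ∈ q, eval z f = 0) → eval z G ≠ 0 →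
      ∃ b : Fin n → ℝ, ∀ (v : Fin n → ℂ) (s : ℂ),
        (∀ f ∈ q, ∑ k, v k * eval z (pderiv k f) = 0) →
        ∀ α β : {I : Finset (Fin n) // I.card = k + 1} → Fin n → ℕ,
          (∀ I, α I ∈ S I ∧ β I ∈ S I ∧ α I ≠ β I) →
          (∀ I, ∑ i, ((α I i : ℂ) - β I i) * (v i + s * b i) = 0) → v = 0 ∧ s = 0 := by
  classical
  set SS := ∀ I : {I : Finset (Fin n) // I.card = k + 1},
    {p : {x // x ∈ S I} × {x // x ∈ S I} // p.1 ≠ p.2} with hSS
  have hfinS : Finite SS := by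
    rw [hSS]
    infer_instance
  have : Fintype SS := Fintype.ofFinite SS
  -- rows
  have rows : ∀ s : SS, ∃ r : Fin (d + 1) → {I : Finset (Fin n) // I.card = k + 1},
      LinearIndependent ℤ (fun j => (fun (I : {I : Finset (Fin n) // I.card = k + 1}) i =>
        ((s I).1.1.1 i : ℤ) - (s I).1.2.1 i) (r j)) := by
    intro s
    exact GP.exists_rows (by omega) (fun I i => ((s I).1.1.1 i : ℤ) - (s I).1.2.1 i)
      (by
        intro I h
        apply (s I).2
        apply Subtype.ext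
        funext i
        have h2 : ((s I).1.1.1 i : ℤ) - (s I).1.2.1 i = 0 := congrFun h i
        omega)
      (by
        intro I i hi
        show ((s I).1.1.1 i : ℤ) - (s I).1.2.1 i = 0
        rw [hS I _ (s I).1.1.2 i hi, hS I _ (s I).1.2.2 i hi]
        rfl)
  choose r hr using rows
  have key : ∀ s : SS, ∃ G ∉ q, ∀ z : Fin n → ℂ, (∀ f ∈ q, eval z f = 0) → eval z G ≠ 0 →
      ∀ b : Fin n → ℂ, (∀ f ∈ q, ∑ k, b k * eval z (pderiv k f) = 0) →
      (∀ j : Fin d, ∑ i, (((((s (r s j.castSucc)).1.1.1 i : ℤ) -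
        (s (r s j.castSucc)).1.2.1 i : ℤ)) : ℂ) * b i = 0) → b = 0 := by
    intro s
    obtain ⟨G, hG, h⟩ := GP.exists_tangent_poly q hqd
      (fun j i => (((((s (r s (Fin.castSucc j))).1.1.1 i : ℤ) -
        (s (r s (Fin.castSucc j))).1.2.1 i : ℤ)) : ℂ))
      (hgp _ ((hr s).comp _ (Fin.castSucc_injective d)))
    exact ⟨G, hG, fun z hz hGz b hb hab => h z hz hGz b hb hab⟩
  choose G hG hGs using key
  refine ⟨∏ s, G s, ?_, ?_⟩
  · rw [Ideal.IsPrime.prod_mem_iff]
    rintro ⟨s, _, hs⟩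
    exact hG s hs
  · intro z hz hGz
    rw [map_prod, Finset.prod_ne_zero_iff] at hGz
    -- the tangent space
    let T : Submodule ℂ (Fin n → ℂ) :=
      { carrier := {v | ∀ f ∈ q, ∑ k, v k * eval z (pderiv k f) = 0}
        add_mem' := by
          intro a b ha hb f hf
          have h1 : ∑ k, (a + b) k * eval z (pderiv k f) =
              ∑ k, a k * eval z (pderiv k f) + ∑ k, b k * eval z (pderiv k f) := by
            rw [← Finset.sum_add_distrib]
            refine Finset.sum_congr rfl fun i _ => ?_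
            rw [Pi.add_apply, add_mul]
          rw [h1, ha f hf, hb f hf, add_zero]
        zero_mem' := by
          intro f _
          simp
        smul_mem' := by
          intro c a ha f hf
          have h1 : ∑ k, (c • a) k * eval z (pderiv k f) =
              c * ∑ k, a k * eval z (pderiv k f) := by
            rw [Finset.mul_sum]
            refine Finset.sum_congr rfl fun i _ => ?_
            rw [Pi.smul_apply, smul_eq_mul, mul_assoc]
          rw [h1, ha f hf, mul_zero] }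
    let N : SS → Submodule ℂ (Fin n → ℂ) := fun s =>
      { carrier := {v | ∀ I, ∑ i, (((s I).1.1.1 i : ℂ) - (s I).1.2.1 i) * v i = 0}
        add_mem' := by
          intro a b ha hb I
          have h1 : ∑ i, (((s I).1.1.1 i : ℂ) - (s I).1.2.1 i) * (a + b) i =
              ∑ i, (((s I).1.1.1 i : ℂ) - (s I).1.2.1 i) * a i +
              ∑ i, (((s I).1.1.1 i : ℂ) - (s I).1.2.1 i) * b i := by
            rw [← Finset.sum_add_distrib]
            refine Finset.sum_congr rfl fun i _ => ?_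
            rw [Pi.add_apply, mul_add]
          rw [h1, ha I, hb I, add_zero]
        zero_mem' := by
          intro I
          simp
        smul_mem' := by
          intro c a ha I
          have h1 : ∑ i, (((s I).1.1.1 i : ℂ) - (s I).1.2.1 i) * (c • a) i =
              c * ∑ i, (((s I).1.1.1 i : ℂ) - (s I).1.2.1 i) * a i := by
            rw [Finset.mul_sum]
            refine Finset.sum_congr rfl fun i _ => ?_
            rw [Pi.smul_apply, smul_eq_mul]
            ring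
          rw [h1, ha I, mul_zero] }
    have hrowN : ∀ (s : SS) (v : Fin n → ℂ), v ∈ N s → ∀ I,
        ∑ i, ((((s I).1.1.1 i : ℤ) - (s I).1.2.1 i : ℤ) : ℂ) * v i = 0 := by
      intro s v hv I
      have h1 : ∑ i, (((s I).1.1.1 i : ℂ) - (s I).1.2.1 i) * v i = 0 := hv I
      rw [← h1]
      refine Finset.sum_congr rfl fun i _ => ?_
      push_cast
      rfl
    have hTN : ∀ s, T ⊔ N s ≠ ⊤ := by
      intro s
      refine sup_ne_top_aux _ (hr s) T (N s) ?_ ?_
      · intro v hv hj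
        exact hGs s z hz (hGz s (Finset.mem_univ s)) v hv hj
      · intro v hv j
        exact hrowN s v hv (r s j)
    obtain ⟨b, hb⟩ := exists_real_notMem (fun s => T ⊔ N s) hTN
    refine ⟨b, ?_⟩
    intro v c hv α β hαβ hab
    obtain ⟨s, hs⟩ : ∃ s : SS, ∀ I, (s I).1.1.1 = α I ∧ (s I).1.2.1 = β I := by
      refine ⟨fun I => ⟨(⟨α I, (hαβ I).1⟩, ⟨β I, (hαβ I).2.1⟩), ?_⟩, fun I => ⟨rfl, rfl⟩⟩
      intro h
      exact (hαβ I).2.2 (congrArg Subtype.val h)
    have hvT : v ∈ T := hv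
    have hmemN : v + c • (fun i => (b i : ℂ)) ∈ N s := by
      intro I
      rw [(hs I).1, (hs I).2]
      exact hab I
    have hc : c = 0 := by
      by_contra hc
      apply hb s
      have h1 : (fun i => (b i : ℂ)) = c⁻¹ • (-v) + c⁻¹ • (v + c • (fun i => (b i : ℂ))) := by
        rw [← smul_add, neg_add_cancel_left, smul_smul, inv_mul_cancel₀ hc, one_smul]
      rw [h1]
      exact Submodule.add_mem_sup (T.smul_mem _ (T.neg_mem hvT)) ((N s).smul_mem _ hmemN)
    refine ⟨?_, hc⟩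
    rw [hc, zero_smul, add_zero] at hmemN
    exact hGs s z hz (hGz s (Finset.mem_univ s)) v hvT fun j => hrowN s v hmemN _

end Pool.Agent.Lib.MP_209724_lc.GD
end

section

namespace Pool.Agent.Lib.MP_209724_lc.GE

open MvPolynomial Filter Topology Metric Set
open GC (prj cone)
open GP (OnV OnW)

variable {n : ℕ}

/-- **The points of `Z` are in `Lim`.** Proof. `z ∈ cone p`: `r → ∞`, `x ν` on `W`, `x ν / r ν → z`; shift the
sequence so that `r ν ≥ 1` and (`hg`) `‖eval (x ν) g‖ ≥ (r ν ^ C₁)⁻¹`, in particular `≠ 0`, for all `ν`. Let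
`y ν` be the point of `hcen` over `x ν`. All bounds `A ν = C (1 + ‖x ν‖)^N / ‖eval (x ν) g‖` satisfy
`A ν ≤ C₂ (r ν) ^ C₃`, so `log (A ν) / r ν → 0` from above (compare `GP.log_growth`), and
`- log (A ν) ≤ log ‖y i‖ ≤ log (A ν)`; so `uu (v ν) / r ν → Re z`, and `log ‖P‖ ≥ - log (A ν) ≥ - C r ν`. -/
theorem mem_Lim {L : Type} [Field L] [Algebra ℂ L] {ξ υ : Fin n → L}
    {P : MvPolynomial (Fin n ⊕ Fin n) ℂ} {p : Ideal (MvPolynomial (Fin n) ℂ)}
    (hp : ∀ c, c ∈ p ↔ aeval ξ c = 0) (hn : 0 < n) {g : MvPolynomial (Fin n) ℂ} {C : ℝ} {N : ℕ}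
    (hcen : ∀ x : Fin n → ℂ, OnW ξ x → eval x g ≠ 0 →
        ∃ y : Fin n → ℂ, OnV ξ υ x y ∧ (∀ i, y i ≠ 0) ∧ eval (Sum.elim x y) P ≠ 0 ∧
          (∀ i, ‖y i‖ ≤ C * (1 + ‖x‖) ^ N / ‖eval x g‖ ∧
            ‖(y i)⁻¹‖ ≤ C * (1 + ‖x‖) ^ N / ‖eval x g‖) ∧
          ‖(eval (Sum.elim x y) P)⁻¹‖ ≤ C * (1 + ‖x‖) ^ N / ‖eval x g‖)
    {z : Fin n → ℂ} (hz : z ∈ cone p) (hg : PolyBd ξ z g) :
    (z, fun i => (z i).re) ∈ Lim ξ υ P := by
  classical
  obtain ⟨r, x, hr, hx, hzl⟩ := hz
  have hW : ∀ ν, OnW ξ (x ν) := fun ν f hf => hx ν f ((hp f).mpr hf)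
  obtain ⟨n₀, hn₀⟩ := eventually_atTop.mp (hr.eventually_ge_atTop 1)
  obtain ⟨r', hr'⟩ : ∃ r' : ℕ → ℝ, r' = fun ν => r (ν + n₀) := ⟨_, rfl⟩
  obtain ⟨x', hx'⟩ : ∃ x' : ℕ → Fin n → ℂ, x' = fun ν => x (ν + n₀) := ⟨_, rfl⟩
  have hr1 : ∀ ν, 1 ≤ r' ν := fun ν => by rw [hr']; exact hn₀ _ (Nat.le_add_left _ _)
  have hrt : Tendsto r' atTop atTop := by rw [hr']; exact hr.comp (tendsto_add_atTop_nat n₀)
  have hxt : Tendsto (fun ν => (r' ν)⁻¹ • x' ν) atTop (𝓝 z) := by
    rw [hr', hx']; exact hzl.comp (tendsto_add_atTop_nat n₀)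
  have hW' : ∀ ν, OnW ξ (x' ν) := fun ν => by rw [hx']; exact hW _
  obtain ⟨M, hM⟩ := hg r' x' (fun ν => lt_of_lt_of_le one_pos (hr1 ν)) hrt hW' hxt
  obtain ⟨R, hR⟩ : ∃ R : ℝ, R = ‖z‖ + 1 := ⟨_, rfl⟩
  have hR0 : 0 < R := by rw [hR]; positivity
  have hxR : ∀ᶠ ν in atTop, ‖x' ν‖ ≤ |R| * r' ν := by
    have h1 := hxt.norm.eventually (gt_mem_nhds (show ‖z‖ < R by rw [hR]; linarith))
    filter_upwards [h1] with ν h2
    have h3 : 0 < r' ν := lt_of_lt_of_le one_pos (hr1 ν)
    rw [norm_smul, norm_inv, Real.norm_of_nonneg h3.le, inv_mul_lt_iff₀ h3] at h2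
    rw [abs_of_pos hR0]
    linarith [mul_comm R (r' ν)]
  have hlg := GP.log_growth C N M R r' hrt
  obtain ⟨n₁, hn₁⟩ := eventually_atTop.mp (hM.and (hxR.and (hlg 1 one_pos)))
  have hg0 : ∀ ν, eval (x' (ν + n₁)) g ≠ 0 := by
    intro ν h0
    have h1 := (hn₁ (ν + n₁) (Nat.le_add_left _ _)).1.1
    rw [h0, norm_zero] at h1
    have h2 : 0 < (r' (ν + n₁) ^ M)⁻¹ := by
      have := hr1 (ν + n₁)
      positivity
    linarith
  choose y hy1 hy2 hy3 hy4 hy5 using fun ν => hcen (x' (ν + n₁)) (hW' _) (hg0 ν)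
  -- the bound
  obtain ⟨B, hB⟩ : ∃ B : ℕ → ℝ, B = fun ν => max C 1 * (1 + |R| * r' ν) ^ N / (r' ν ^ M)⁻¹ :=
    ⟨_, rfl⟩
  have hAB : ∀ ν, C * (1 + ‖x' (ν + n₁)‖) ^ N / ‖eval (x' (ν + n₁)) g‖ ≤ B (ν + n₁) := by
    intro ν
    obtain ⟨⟨h1, -⟩, h2, -⟩ := hn₁ (ν + n₁) (Nat.le_add_left _ _)
    have h3 := hr1 (ν + n₁)
    rw [hB]
    have h4 : C * (1 + ‖x' (ν + n₁)‖) ^ N ≤ max C 1 * (1 + |R| * r' (ν + n₁)) ^ N := by
      have h5 : (1 + ‖x' (ν + n₁)‖) ^ N ≤ (1 + |R| * r' (ν + n₁)) ^ N :=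
        pow_le_pow_left₀ (by positivity) (by linarith) N
      calc C * (1 + ‖x' (ν + n₁)‖) ^ N ≤ max C 1 * (1 + ‖x' (ν + n₁)‖) ^ N := by
            gcongr
            exact le_max_left _ _
        _ ≤ _ := by gcongr
    have h6 : 0 < (r' (ν + n₁) ^ M)⁻¹ := by positivity
    exact div_le_div₀ (by positivity) h4 h6 h1
  have hlogB : ∀ ν, Real.log (B (ν + n₁)) ≤ r' (ν + n₁) := by
    intro ν
    have h1 := (hn₁ (ν + n₁) (Nat.le_add_left _ _)).2.2
    rw [hB]
    simpa using h1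
  have hlogt : Tendsto (fun ν => (r' (ν + n₁))⁻¹ * Real.log (B (ν + n₁))) atTop (𝓝 0) := by
    have h0 : Tendsto (fun ν => (r' ν)⁻¹ * Real.log (B ν)) atTop (𝓝 0) := by
      rw [Metric.tendsto_atTop']
      intro ε hε
      obtain ⟨n₂, hn₂⟩ := eventually_atTop.mp (hlg (ε / 2) (by positivity))
      refine ⟨n₂, fun ν hν => ?_⟩
      have h1 := hn₂ ν hν.le
      have h2 : 0 < r' ν := lt_of_lt_of_le one_pos (hr1 ν)
      have h2' := hr1 ν
      have h3 : 0 ≤ Real.log (B ν) := by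
        apply Real.log_nonneg
        rw [hB]
        simp only [div_inv_eq_mul]
        have h4 : (1 : ℝ) ≤ max C 1 := le_max_right _ _
        have h5 : (1 : ℝ) ≤ (1 + |R| * r' ν) ^ N := one_le_pow₀ (by
          have : 0 ≤ |R| * r' ν := by positivity
          linarith)
        have h6 : (1 : ℝ) ≤ r' ν ^ M := one_le_pow₀ h2'
        exact one_le_mul_of_one_le_of_one_le (one_le_mul_of_one_le_of_one_le h4 h5) h6
      rw [Real.dist_eq, sub_zero, abs_of_nonneg (by positivity), inv_mul_lt_iff₀ h2]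
      rw [hB] at h3 ⊢
      have h7 : 0 < ε * r' ν := by positivity
      simp only at h3 ⊢
      linarith [mul_comm ε (r' ν)]
    exact h0.comp (tendsto_add_atTop_nat n₁)
  have hylog : ∀ ν i, |Real.log ‖y ν i‖| ≤ Real.log (B (ν + n₁)) := by
    intro ν i
    have h1 := ((hy4 ν i).1).trans (hAB ν)
    have h2 := ((hy4 ν i).2).trans (hAB ν)
    have h3 : 0 < ‖y ν i‖ := norm_pos_iff.mpr (hy2 ν i)
    rw [norm_inv] at h2
    have h4 := Real.log_le_log h3 h1
    have h5 := Real.log_le_log (inv_pos.mpr h3) h2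
    rw [Real.log_inv] at h5
    rw [abs_le]
    constructor <;> linarith
  refine ⟨fun ν => r' (ν + n₁), fun ν => (x' (ν + n₁), y ν),
    fun ν => lt_of_lt_of_le one_pos (hr1 _), hrt.comp (tendsto_add_atTop_nat n₁),
    fun ν => ⟨hy1 ν, hy2 ν, hy3 ν⟩, hxt.comp (tendsto_add_atTop_nat n₁), ?_, 1, ?_⟩
  · rw [tendsto_pi_nhds]
    intro i
    have h1 : Tendsto (fun ν => ((r' (ν + n₁))⁻¹ • x' (ν + n₁)) i) atTop (𝓝 (z i)) :=
      (tendsto_pi_nhds.mp (hxt.comp (tendsto_add_atTop_nat n₁))) i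
    have h2 : Tendsto (fun ν => (((r' (ν + n₁))⁻¹ • x' (ν + n₁)) i).re) atTop (𝓝 (z i).re) :=
      (Complex.continuous_re.tendsto _).comp h1
    have h3 : Tendsto (fun ν => (r' (ν + n₁))⁻¹ * Real.log ‖y ν i‖) atTop (𝓝 0) := by
      refine squeeze_zero_norm (fun ν => ?_) hlogt
      have h4 : 0 < r' (ν + n₁) := lt_of_lt_of_le one_pos (hr1 _)
      rw [Real.norm_eq_abs, abs_mul, abs_of_pos (inv_pos.mpr h4)]
      exact mul_le_mul_of_nonneg_left (hylog ν i) (inv_pos.mpr h4).le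
    have h5 := h2.sub h3
    rw [sub_zero] at h5
    refine h5.congr fun ν => ?_
    simp only [uu, Pi.smul_apply, smul_eq_mul, Complex.real_smul, Complex.mul_re,
      Complex.ofReal_re, Complex.ofReal_im, ← Complex.ofReal_inv]
    ring
  · intro ν
    have h1 := (hy5 ν).trans (hAB ν)
    have h3 : 0 < ‖eval (Sum.elim (x' (ν + n₁)) (y ν)) P‖ := norm_pos_iff.mpr (hy3 ν)
    rw [norm_inv] at h1
    have h5 := Real.log_le_log (inv_pos.mpr h3) h1
    rw [Real.log_inv] at h5
    have h6 := hlogB ν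
    simp only [one_mul]
    linarith

end Pool.Agent.Lib.MP_209724_lc.GE
end

section

namespace Pool.Agent.Lib.MP_209724_lc.GE

open MvPolynomial Filter Topology Metric Set
open GC (prj)
open GP (OnV OnW)
open MV (lead)

variable {n d : ℕ}

/-- **Polynomial bounds along sequences.** Proof. `N` from `GP.coeff_bounds`. Let `eval (Z z) (lead N) ≠ 0` and
`D` a closed ball around `prj Z z` on which `lead N ≠ 0`. For `r, x` as in `PolyBd`, `R = ‖z‖ + 1`: for large
`ν` `‖x ν‖ ≤ R r ν`, `t = prj Z ((r ν)⁻¹ • x ν) ∈ D` and `prj Z (x ν) j = r ν * t j`; apply `coeff_bounds` at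
`r = r ν` (`hr.eventually`). -/
theorem exists_polyBd {L : Type} [Field L] [Algebra ℂ L] (ξ : Fin n → L) (Z : Fin d → Fin n → ℂ)
    (hind : AlgebraicIndependent ℂ fun j => ∑ i, algebraMap ℂ L (Z j i) * ξ i)
    (halg : ∀ i, IsAlgebraic (Algebra.adjoin ℂ (Set.range fun j => ∑ i, algebraMap ℂ L (Z j i) * ξ i))
      (ξ i)) (c : MvPolynomial (Fin n) ℂ) (hc : aeval ξ c ≠ 0) :
    ∃ N : MvPolynomial (Fin d) ℂ, N ≠ 0 ∧ ∀ z : Fin n → ℂ, eval (prj Z z) (lead N) ≠ 0 →
      PolyBd ξ z c := by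
  obtain ⟨N, hN, h⟩ := GP.coeff_bounds ξ Z hind halg c hc
  refine ⟨N, hN, fun z hz r x hr0 hr hx hlim => ?_⟩
  have hcN : Continuous fun t : Fin d → ℂ => eval t (lead N) := MvPolynomial.continuous_eval _
  have hcZ : Continuous fun w : Fin n → ℂ => prj Z w := by
    refine continuous_pi fun j => ?_
    exact continuous_finsetSum _ fun i _ => continuous_const.mul (continuous_apply i)
  have hopen : IsOpen {t : Fin d → ℂ | eval t (lead N) ≠ 0} := isOpen_ne.preimage hcN
  obtain ⟨δ, hδ, hball⟩ := Metric.nhds_basis_closedBall.mem_iff.1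
    (hopen.mem_nhds (show prj Z z ∈ {t : Fin d → ℂ | eval t (lead N) ≠ 0} from hz))
  obtain ⟨C, hC⟩ := h (closedBall (prj Z z) δ) (isCompact_closedBall _ _) (fun t ht => hball ht)
    (‖z‖ + 1)
  refine ⟨C, ?_⟩
  have h1 : ∀ᶠ ν in atTop, ‖(r ν)⁻¹ • x ν‖ < ‖z‖ + 1 :=
    hlim.norm.eventually (gt_mem_nhds (by linarith))
  have h2 : ∀ᶠ ν in atTop, prj Z ((r ν)⁻¹ • x ν) ∈ closedBall (prj Z z) δ :=
    ((hcZ.tendsto z).comp hlim).eventually (closedBall_mem_nhds _ hδ)
  filter_upwards [hr.eventually hC, h1, h2] with ν h3 h4 h5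
  refine h3 (x ν) (hx ν) ?_ _ h5 ?_
  · rw [norm_smul, norm_inv, Real.norm_eq_abs, abs_of_pos (hr0 ν)] at h4
    have h6 : r ν * ((r ν)⁻¹ * ‖x ν‖) ≤ r ν * (‖z‖ + 1) :=
      mul_le_mul_of_nonneg_left h4.le (hr0 ν).le
    rw [← mul_assoc, mul_inv_cancel₀ (hr0 ν).ne', one_mul] at h6
    linarith
  · intro j
    have hrc : (r ν : ℂ) ≠ 0 := by
      rw [Ne, Complex.ofReal_eq_zero]
      exact (hr0 ν).ne'
    show ∑ i, Z j i * x ν i = (r ν : ℂ) * ∑ i, Z j i * ((r ν)⁻¹ • x ν) i
    rw [Finset.mul_sum]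
    refine Finset.sum_congr rfl fun i _ => ?_
    rw [Pi.smul_apply, Complex.real_smul, Complex.ofReal_inv]
    field_simp

end Pool.Agent.Lib.MP_209724_lc.GE
end
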